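import Mathlib
import Pool.Agent.Lib.H35T.Defs

/-!
# H13N: the final statement for p = 3 (nonabelian 3-extensions), for all subfields

See PROOF.md.
-/

open NumberField IsDedekindDomain

namespace H13N

open H55B H35T

/-- Involutions of a group. -/
abbrev Inv (Γ : Type) [Group Γ] : Type := {γ : Γ // γ ≠ 1 ∧ γ * γ = 1}

/-- N is a Galois extension of the rationals containing F, of 3-power degree over F, unramified outside
the good primes. -/
structure GalN (N : Type) [Field N] [NumberField N] [Algebra F N] (k : ℕ) : Prop where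
  gal : IsGalois ℚ N
  deg : Module.finrank F N = 3 ^ k
  unr : UnrOut N

variable (K₀ N : Type) [Field K₀] [NumberField K₀] [Field N] [NumberField N] [Algebra K₀ N]

/-- The primes of N above 3 whose inertia group over the rationals meets the Galois group of N over K₀. -/
abbrev WI : Type := {w : HeightOneSpectrum (𝓞 N) // (3 : 𝓞 N) ∈ w.asIdeal ∧
  ∃ γ : N ≃ₐ[K₀] N, γ ≠ 1 ∧ ∀ y : 𝓞 N, γ • y - y ∈ w.asIdeal}

/-- The primes of N above 3. -/
abbrev W3 : Type := {w : HeightOneSpectrum (𝓞 N) // (3 : 𝓞 N) ∈ w.asIdeal}

end H13N
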