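import Mathlib
import Pool.Agent.Lib.H13E.S5

open NumberField IsDedekindDomain

namespace H13N

open H55B H35T

/-! Chunk G1 (S/M): the Galois closure N of L over the rationals has 3-power degree over F. -/

/-- The image of om generates the image of F. -/
theorem g1_mem (N : Type) [Field N] [NumberField N] (i : F →+* N) (R : Subfield N)
    (h : i (algebraMap O F om) ∈ R) (x : F) : i x ∈ R := by
  let _ : Algebra F N := i.toAlgebra
  refine H13E.S5_mem N R ?_ x
  rw [IsScalarTower.algebraMap_apply O F N]
  exact h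

/-- The images of om under two embeddings. -/
theorem g1_two (N : Type) [Field N] [NumberField N] (i j : F →+* N) :
    j (algebraMap O F om) = i (algebraMap O F om) ∨
      j (algebraMap O F om) = i (algebraMap O F om) ^ 2 := by
  have h1 : ∀ l : F →+* N, l (algebraMap O F om) ^ 2 + l (algebraMap O F om) + 1 = 0 := by
    intro l
    have h := congrArg (fun z : O => l (algebraMap O F z)) om_rel
    simpa only [map_add, map_pow, map_one, map_zero] using h
  have hi := h1 i
  have hj := h1 j
  have h2 : (j (algebraMap O F om) - i (algebraMap O F om)) *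
      (j (algebraMap O F om) - i (algebraMap O F om) ^ 2) = 0 := by
    linear_combination hj + (i (algebraMap O F om) - 1 - j (algebraMap O F om)) * hi
  rcases mul_eq_zero.1 h2 with h | h
  · exact Or.inl (sub_eq_zero.1 h)
  · exact Or.inr (sub_eq_zero.1 h)

/-- An element of Gal(N/F) fixes the image of F under every embedding. -/
theorem g1_fix (N : Type) [Field N] [NumberField N] [Algebra F N] (a : N ≃ₐ[F] N) (j : F →+* N)
    (x : F) : a (j x) = j x := by
  let R : Subfield N := (RingHom.eqLocusField (a : N →+* N) (RingHom.id N))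
  have hmem : ∀ z, z ∈ R ↔ a z = z := fun z => Iff.rfl
  have h : j (algebraMap O F om) ∈ R := by
    rw [hmem]
    have h1 : a (algebraMap F N (algebraMap O F om)) = algebraMap F N (algebraMap O F om) :=
      a.commutes _
    rcases g1_two N (algebraMap F N) j with h2 | h2
    · rw [h2, h1]
    · rw [h2, map_pow, h1]
  exact (hmem _).1 (g1_mem N j R h x)

theorem g1_aux {k L N : Type} [Field k] [Field L] [Field N] [Algebra k L] [Algebra k N]
    [Algebra L N] [IsScalarTower k L N] [Normal k L] (a : N ≃ₐ[k] N) :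
    ∃ α : L ≃ₐ[k] L, ∀ x : L, a (algebraMap L N x) = algebraMap L N (α x) :=
  ⟨a.restrictNormal L, fun x => (AlgEquiv.restrictNormal_commutes a L x).symm⟩

/-- The restriction to L by an embedding. -/
theorem g1_restrict (L N : Type) [Field L] [NumberField L] [Algebra F L] [Field N] [NumberField N]
    [Algebra F N] (hG : IsGalois F L) (a : N ≃ₐ[F] N) (τ : L →+* N) :
    ∃ α : L ≃ₐ[F] L, ∀ x : L, a (τ x) = τ (α x) := by
  have hfix := fun x => g1_fix N a (τ.comp (algebraMap F L)) x
  let iL : Algebra L N := τ.toAlgebra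
  let iF : Algebra F N := (τ.comp (algebraMap F L)).toAlgebra
  have hT : @IsScalarTower F L N _ iL.toSMul iF.toSMul :=
    @IsScalarTower.of_algebraMap_eq F L N _ _ _ _ iL iF (fun x => rfl)
  have hNm : Normal F L := inferInstance
  let a' : @AlgEquiv F N N _ _ _ iF iF :=
    @AlgEquiv.ofRingEquiv F N N _ _ _ iF iF (a : N ≃+* N) hfix
  exact @g1_aux F L N _ _ _ _ iF iL hT hNm a'

theorem g1_pow (L N : Type) [Field L] [NumberField L] [Algebra F L] [Field N] [NumberField N]
    [Algebra F N] (hG : IsGalois F L) (k : ℕ) (hk : Module.finrank F L = 3 ^ k)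
    (hN : IsGalois ℚ N) (hgen : ∀ g : N ≃ₐ[F] N, (∀ (τ : L →+* N) (x : L), g (τ x) = τ x) → g = 1) :
    ∃ m : ℕ, Module.finrank F N = 3 ^ m := by
  have hNF : IsGalois F N := IsGalois.tower_top_of_isGalois ℚ F N
  have hp : IsPGroup 3 (N ≃ₐ[F] N) := by
    intro a
    refine ⟨k, hgen _ ?_⟩
    intro τ x
    obtain ⟨α, hα⟩ := g1_restrict L N hG a τ
    have h1 : ∀ (n : ℕ) (x : L), (a ^ n) (τ x) = τ ((α ^ n) x) := by
      intro n
      induction n with
      | zero => intro x; simp
      | succ n ih =>
        intro x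
        rw [pow_succ, pow_succ]
        show (a ^ n) (a (τ x)) = τ ((α ^ n) (α x))
        rw [hα, ih]
    have h2 : α ^ 3 ^ k = 1 := by
      rw [← hk, ← IsGalois.card_aut_eq_finrank F L]
      exact pow_card_eq_one'
    rw [h1, h2]
    rfl
  obtain ⟨m, hm⟩ := (IsPGroup.iff_card (p := 3)).1 hp
  exact ⟨m, by rw [← IsGalois.card_aut_eq_finrank F N, hm]⟩

end H13N
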