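import Mathlib
import Pool.Agent.Lib.H13N.G1

open NumberField IsDedekindDomain

namespace H13N

open H55B H35T

/-! Chunk G2 (M): N is unramified outside the good primes. Let P be a prime of N over a prime v of O which is not good. N/F is Galois, so ramificationIdx P = order of the
inertia group of P in Gal(N/F) (Ideal.card_inertia_eq_ramificationIdxIn, see t8_iff in H13E/T8.lean). Let g be in the inertia group: g y - y in P for y in 𝓞 N. For every
embedding τ : L → N, g ∘ τ = τ ∘ α (g1_restrict), and P' = τ^(-1)(P) (a prime of 𝓞 L, RingOfIntegers.mapRingHom, comap; not ⊥) satisfies α y - y in P'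
for y in 𝓞 L. P' lies over v' = the preimage of P under O → 𝓞 L → 𝓞 N; τ restricted to O is either the given map or the given map after cj (τ om = om or om^2), so v' = v or
v' = cj^(-1)(v), and v' is not good either: if x^2 + 1, 2 or 3 is in v then cj of it is in v'. By UnrOut L the index of P' is 1, the inertia group of
P' in Gal(L/F) is trivial, α = 1. So g ∘ τ = τ for all τ, g = 1 (hgen). -/

theorem good_cj (v v' : HeightOneSpectrum O) (h : ∀ x : O, cj x ∈ v'.asIdeal ↔ x ∈ v.asIdeal) :
    Good v' ↔ Good v := by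
  have h2 : (2 : O) ∈ v'.asIdeal ↔ (2 : O) ∈ v.asIdeal := by
    have := h 2
    rwa [map_ofNat] at this
  have h3 : (3 : O) ∈ v'.asIdeal ↔ (3 : O) ∈ v.asIdeal := by
    have := h 3
    rwa [map_ofNat] at this
  have hs : (∃ x : O, x ^ 2 + 1 ∈ v'.asIdeal) ↔ ∃ x : O, x ^ 2 + 1 ∈ v.asIdeal := by
    constructor
    · rintro ⟨x, hx⟩
      refine ⟨cj x, ?_⟩
      rw [← h, map_add, map_pow, map_one, cj_cj]
      exact hx
    · rintro ⟨x, hx⟩
      refine ⟨cj x, ?_⟩
      have := (h _).2 hx
      rwa [map_add, map_pow, map_one] at this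
  unfold Good
  rw [h2, h3, hs]

theorem g2_card (L : Type) [Field L] [NumberField L] [Algebra F L] (hG : IsGalois F L)
    (w : HeightOneSpectrum (𝓞 L)) :
    Nat.card (w.asIdeal.inertia (L ≃ₐ[F] L)) = w.asIdeal.ramificationIdx O := by
  have hwm := w.isMaximal
  have hwp := w.isPrime
  have hl : w.asIdeal.LiesOver (w.asIdeal.under O) := ⟨rfl⟩
  have hum : (w.asIdeal.under O).IsMaximal := Ideal.IsMaximal.under _ _
  have hub : w.asIdeal.under O ≠ ⊥ := Ideal.IsIntegral.comap_ne_bot _ w.ne_bot
  have hfin : Finite (O ⧸ w.asIdeal.under O) :=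
    Ideal.finiteQuotientOfFreeOfNeBot _ hub
  rw [Ideal.card_inertia_eq_ramificationIdxIn (G := L ≃ₐ[F] L)
      (w.asIdeal.under O) w.asIdeal,
      Ideal.ramificationIdxIn_eq_ramificationIdx (w.asIdeal.under O) w.asIdeal (L ≃ₐ[F] L)]

theorem g2_hom {R : Type*} [CommRing R] (i j : O →+* R) (h : j om = i om) (x : O) : j x = i x := by
  obtain ⟨a, b, rfl⟩ := exists_repr x
  rw [map_add, map_mul, map_intCast, map_intCast, map_add, map_mul, map_intCast, map_intCast, h]

theorem g2_hom2 {R : Type*} [CommRing R] (i j : O →+* R) (h : j om = i om ^ 2) (x : O) :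
    j x = i (cj x) := by
  have := g2_hom (i.comp (cj : O →+* O)) j (by
    rw [h, RingHom.comp_apply]
    show _ = i (cj om)
    rw [cj_om, map_pow]) x
  rw [this]
  rfl

theorem g2_unr (L N : Type) [Field L] [NumberField L] [Algebra F L] [Field N] [NumberField N]
    [Algebra F N] (hG : IsGalois F L) (hU : UnrOut L) (hN : IsGalois ℚ N)
    (hgen : ∀ g : N ≃ₐ[F] N, (∀ (τ : L →+* N) (x : L), g (τ x) = τ x) → g = 1) :
    UnrOut N := by
  intro P v hv hng
  have hNF : IsGalois F N := IsGalois.tower_top_of_isGalois ℚ F N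
  rw [← g2_card N hNF P, Subgroup.card_eq_one, eq_bot_iff]
  intro g hg
  rw [Subgroup.mem_bot]
  apply hgen
  intro τ x
  obtain ⟨α, hα⟩ := g1_restrict L N hG g τ
  suffices h1 : α = 1 by
    rw [hα, h1]
    rfl
  let t : 𝓞 L →+* 𝓞 N := RingOfIntegers.mapRingHom τ
  have ht : ∀ y : 𝓞 L, algebraMap (𝓞 N) N (t y) = τ (algebraMap (𝓞 L) L y) := fun y => rfl
  have hPp := P.isPrime
  have hne : P.asIdeal.comap t ≠ ⊥ := by
    intro h
    have hn : (Ideal.absNorm P.asIdeal : 𝓞 L) ∈ P.asIdeal.comap t := by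
      rw [Ideal.mem_comap, map_natCast]
      exact Ideal.absNorm_mem _
    rw [h, Ideal.mem_bot, Nat.cast_eq_zero, Ideal.absNorm_eq_zero_iff] at hn
    exact P.ne_bot hn
  let P' : HeightOneSpectrum (𝓞 L) := ⟨P.asIdeal.comap t, inferInstance, hne⟩
  have hP' : ∀ y, y ∈ P'.asIdeal ↔ t y ∈ P.asIdeal := fun y => Iff.rfl
  have hv'ne : P'.asIdeal.under O ≠ ⊥ := Ideal.IsIntegral.comap_ne_bot _ P'.ne_bot
  have hP'p := P'.isPrime
  let v' : HeightOneSpectrum O := ⟨P'.asIdeal.under O, inferInstance, hv'ne⟩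
  have hv'm : ∀ y : O, y ∈ v'.asIdeal ↔ t (algebraMap O (𝓞 L) y) ∈ P.asIdeal := fun y => Iff.rfl
  have hvm : ∀ y : O, y ∈ v.asIdeal ↔ algebraMap O (𝓞 N) y ∈ P.asIdeal := by
    intro y
    rw [hv, Ideal.under_def, Ideal.mem_comap]
  have hng' : ¬ Good v' := by
    rcases g1_two N (algebraMap F N) (τ.comp (algebraMap F L)) with h2 | h2
    · have h3 : (t.comp (algebraMap O (𝓞 L))) om = algebraMap O (𝓞 N) om := by
        apply RingOfIntegers.ext
        exact h2
      have h4 := g2_hom _ _ h3
      have h5 : v' = v := by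
        apply HeightOneSpectrum.ext
        ext y
        rw [hv'm, hvm, ← h4]
        rfl
      rw [h5]
      exact hng
    · have h3 : (t.comp (algebraMap O (𝓞 L))) om = algebraMap O (𝓞 N) om ^ 2 := by
        apply RingOfIntegers.ext
        exact h2
      have h4 := g2_hom2 _ _ h3
      rw [good_cj v v']
      · exact hng
      · intro y
        rw [hv'm, hvm]
        have h5 := h4 (cj y)
        rw [cj_cj] at h5
        rw [← h5]
        rfl
  have h6 : P'.asIdeal.ramificationIdx O = 1 := hU P' v' rfl hng'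
  rw [← g2_card L hG P', Subgroup.card_eq_one] at h6
  have h7 : α ∈ P'.asIdeal.inertia (L ≃ₐ[F] L) := by
    intro y
    show t (α • y - y) ∈ P.asIdeal
    have h8 : t (α • y - y) = g • t y - t y := by
      rw [map_sub]
      congr 1
      apply RingOfIntegers.ext
      exact (hα (y : L)).symm
    rw [h8]
    exact hg (t y)
  rw [h6, Subgroup.mem_bot] at h7
  exact h7

end H13N
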