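import Mathlib
import Pool.Agent.Lib.H13N.Defs
import Pool.Agent.Lib.H13N.G2

open NumberField IsDedekindDomain

namespace H13N

open H55B H35T

/-! Chunk G3 (M): existence of the Galois closure. -/

theorem g3_closure (L : Type) [Field L] [NumberField L] :
    ∃ (N : Type) (_ : Field N) (_ : NumberField N) (_ : Algebra L N), IsGalois ℚ N ∧
      ∀ g : N ≃ₐ[ℚ] N, (∀ (τ : L →+* N) (x : L), g (τ x) = τ x) → g = 1 := by
  have h1 : Algebra.IsAlgebraic ℚ (AlgebraicClosure L) :=
    Algebra.IsAlgebraic.trans ℚ L (AlgebraicClosure L)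
  have h2 : IsAlgClosure ℚ (AlgebraicClosure L) := ⟨inferInstance, inferInstance⟩
  have h3 : Normal ℚ (AlgebraicClosure L) := IsAlgClosure.normal ℚ (AlgebraicClosure L)
  have h0 : Nonempty (L →ₐ[ℚ] AlgebraicClosure L) := ⟨IsScalarTower.toAlgHom ℚ L _⟩
  let N := IntermediateField.normalClosure ℚ L (AlgebraicClosure L)
  have h4 : FiniteDimensional ℚ N := normalClosure.is_finiteDimensional ℚ L _
  have h5 : NumberField N := NumberField.of_module_finite ℚ N
  have h6 : Normal ℚ N := normalClosure.normal ℚ L _
  have h7 : IsGalois ℚ N := ⟨⟩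
  refine ⟨N, inferInstance, h5, normalClosure.algebra ℚ L _, ?_, ?_⟩
  · convert h7
  · intro g hg
    have h8 : IsNormalClosure ℚ L N := isNormalClosure_normalClosure ℚ L _
    have h9 := (Algebra.IsAlgebraic.isNormalClosure_iff.1 h8).2
    rw [normalClosure_def] at h9
    have hgq : ∀ q : ℚ, g (algebraMap ℚ N q) = algebraMap ℚ N q := fun q => by
      rw [eq_ratCast, map_ratCast]
    let R : IntermediateField ℚ N :=
      { carrier := {x | g x = x}
        mul_mem' := fun {a b} ha hb => by
          show g (a * b) = a * b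
          rw [map_mul, show g a = a from ha, show g b = b from hb]
        one_mem' := map_one g
        add_mem' := fun {a b} ha hb => by
          show g (a + b) = a + b
          rw [map_add, show g a = a from ha, show g b = b from hb]
        zero_mem' := map_zero g
        algebraMap_mem' := hgq
        inv_mem' := fun a ha => by
          show g a⁻¹ = a⁻¹
          rw [map_inv₀, show g a = a from ha] }
    have h10 : (⨆ f : L →ₐ[ℚ] N, f.fieldRange) ≤ R := by
      refine iSup_le fun f => ?_
      rintro _ ⟨x, rfl⟩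
      exact hg (f : L →+* N) x
    ext x
    have hx : x ∈ R := h10 (by rw [h9]; exact IntermediateField.mem_top)
    exact congrArg Subtype.val (show g x = x from hx)

theorem exists_galN (L : Type) [Field L] [NumberField L] [Algebra F L] (hG : IsGalois F L) (k : ℕ)
    (hk : Module.finrank F L = 3 ^ k) (hU : UnrOut L) :
    ∃ (N : Type) (_ : Field N) (_ : NumberField N) (_ : Algebra F N) (_ : Algebra L N)
      (_ : IsScalarTower F L N) (m : ℕ), GalN N m := by
  obtain ⟨N, i1, i2, i3, hN, hg⟩ := g3_closure L
  let i4 : Algebra F N := ((algebraMap L N).comp (algebraMap F L)).toAlgebra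
  have i5 : IsScalarTower F L N := IsScalarTower.of_algebraMap_eq fun x => rfl
  have hgen : ∀ g : N ≃ₐ[F] N, (∀ (τ : L →+* N) (x : L), g (τ x) = τ x) → g = 1 := by
    intro g h
    have h1 := hg (g.restrictScalars ℚ) h
    ext x
    exact congrArg (fun σ : N ≃ₐ[ℚ] N => σ x) h1
  obtain ⟨m, hm⟩ := g1_pow L N hG k hk hN hgen
  exact ⟨N, i1, i2, i4, i3, i5, m, hN, hm, g2_unr L N hG hU hN hgen⟩

end H13N
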