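import Mathlib
import Pool.Agent.Lib.H13E.C3
import Pool.Agent.Lib.H19T.Defs

open NumberField IsDedekindDomain

namespace H13N

open H55B H35T H55N H19T H13E

/-! Chunk L1a (S/M): psiT and complex conjugation. -/

theorem l1a_dvd {x y : O} : cj x ∣ y ↔ x ∣ cj y := by
  constructor
  · rintro ⟨z, rfl⟩
    rw [map_mul, cj_cj]
    exact Dvd.intro _ rfl
  · rintro ⟨z, h⟩
    refine ⟨cj z, ?_⟩
    have h1 := congrArg cj h
    rwa [cj_cj, map_mul] at h1

theorem l1a_span {J J' : Ideal O} (h : ∀ x : O, cj x ∈ J' ↔ x ∈ J) (x : O)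
    (hx : J = Ideal.span {x}) : J' = Ideal.span {cj x} := by
  ext y
  rw [Ideal.mem_span_singleton, l1a_dvd, ← Ideal.mem_span_singleton, ← hx, ← h, cj_cj]

theorem psiT_cj (J J' : Ideal O) (h : ∀ x : O, cj x ∈ J' ↔ x ∈ J) :
    psiT J' = (starRingEnd ℂ) (psiT J) := by
  have h' : ∀ x : O, cj x ∈ J ↔ x ∈ J' := by
    intro x
    rw [← h, cj_cj]
  rw [psiT_apply, psiT_apply]
  by_cases hJ : ∃ x : O, J = Ideal.span {x} ∧ Prim x
  · obtain ⟨x, hx, hp⟩ := hJ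
    rw [l1a_span h x hx, hx, pg_span hp, pg_span ((C3_prim_cj x).2 hp), eta_cj, e_cj, e_cj, map_mul]
  · have hJ' : ¬ ∃ x : O, J' = Ideal.span {x} ∧ Prim x := by
      rintro ⟨x, hx, hp⟩
      exact hJ ⟨cj x, l1a_span h' x hx, (C3_prim_cj x).2 hp⟩
    rw [pg_of_not hJ, pg_of_not hJ']
    simp

end H13N
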