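import Mathlib
import Pool.Agent.Lib.H13N.L1a
import Pool.Agent.Lib.H19T.A1

open NumberField IsDedekindDomain

namespace H13N

open H55B H35T H55N H19T H13E

variable {K₀ K : Type} [Field K₀] [NumberField K₀] [Field K] [NumberField K] [Algebra F K] [Algebra K₀ K]

/-! Chunk L1b (M): PsiT and the automorphism c of K over K₀. -/

/-- The automorphism on ideals. -/
noncomputable def cI (c : K ≃ₐ[K₀] K) (a : Ideal (𝓞 K)) : Ideal (𝓞 K) :=
  a.map (RingOfIntegers.mapRingEquiv (c : K ≃+* K))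

omit [NumberField K₀] [NumberField K] [Algebra F K] in
theorem l1b_mem (c : K ≃ₐ[K₀] K) (a : Ideal (𝓞 K)) (x : 𝓞 K) :
    RingOfIntegers.mapRingEquiv (c : K ≃+* K) x ∈ cI c a ↔ x ∈ a := by
  unfold cI
  rw [Ideal.mem_map_of_equiv]
  constructor
  · rintro ⟨y, hy, hxy⟩
    rwa [(RingOfIntegers.mapRingEquiv (c : K ≃+* K)).injective hxy] at hy
  · intro hx
    exact ⟨x, hx, rfl⟩

omit [NumberField K₀] [Algebra F K] in
theorem l1b_norm (c : K ≃ₐ[K₀] K) (a : Ideal (𝓞 K)) :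
    Ideal.absNorm (cI c a) = Ideal.absNorm a := by
  rw [Ideal.absNorm_apply, Ideal.absNorm_apply, Submodule.cardQuot_apply, Submodule.cardQuot_apply]
  exact Nat.card_congr (Ideal.quotientEquiv a (cI c a) (RingOfIntegers.mapRingEquiv (c : K ≃+* K))
    rfl).symm.toEquiv

theorem l1b_normO (J J' : Ideal O) (h : ∀ x : O, cj x ∈ J' ↔ x ∈ J) :
    Ideal.absNorm J' = Ideal.absNorm J := by
  rw [Ideal.absNorm_apply, Ideal.absNorm_apply, Submodule.cardQuot_apply, Submodule.cardQuot_apply]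
  refine Nat.card_congr (Ideal.quotientEquiv J J' cj ?_).symm.toEquiv
  ext y
  have h1 : y ∈ Ideal.map (cj : O →+* O) J ↔ ∃ x ∈ J, cj x = y := Ideal.mem_map_of_equiv cj y
  rw [h1]
  constructor
  · intro hy
    refine ⟨cj y, ?_, cj_cj y⟩
    rw [← h, cj_cj]
    exact hy
  · rintro ⟨x, hx, rfl⟩
    exact (h x).2 hx

omit [NumberField K₀] in
theorem l1b_prime (c : K ≃ₐ[K₀] K)
    (hc : ∀ x : O, c (algebraMap O K x) = algebraMap O K (cj x)) (w : HeightOneSpectrum (𝓞 K)) :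
    PsiT K (cI c w.asIdeal) = (starRingEnd ℂ) (PsiT K w.asIdeal) := by
  have hwp := w.isPrime
  have hp : (cI c w.asIdeal).IsPrime := by
    unfold cI
    infer_instance
  have hb : cI c w.asIdeal ≠ ⊥ := by
    intro h
    apply w.ne_bot
    rw [eq_bot_iff]
    intro x hx
    have h1 := (l1b_mem c w.asIdeal x).2 hx
    rw [h, Ideal.mem_bot, map_eq_zero_iff _ (RingEquiv.injective _)] at h1
    rw [h1]
    exact zero_mem _
  let w' : HeightOneSpectrum (𝓞 K) := ⟨cI c w.asIdeal, hp, hb⟩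
  have hvp := w.isPrime.under O
  have hvp' := w'.isPrime.under O
  let v : HeightOneSpectrum O :=
    ⟨w.asIdeal.under O, hvp, Ideal.IsIntegral.comap_ne_bot _ w.ne_bot⟩
  let v' : HeightOneSpectrum O :=
    ⟨w'.asIdeal.under O, hvp', Ideal.IsIntegral.comap_ne_bot _ w'.ne_bot⟩
  have hs : ∀ x : O, RingOfIntegers.mapRingEquiv (c : K ≃+* K) (algebraMap O (𝓞 K) x) =
      algebraMap O (𝓞 K) (cj x) := by
    intro x
    apply RingOfIntegers.ext
    rw [RingOfIntegers.mapRingEquiv_apply]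
    exact hc x
  have hv : ∀ x : O, cj x ∈ v'.asIdeal ↔ x ∈ v.asIdeal := by
    intro x
    show algebraMap O (𝓞 K) (cj x) ∈ cI c w.asIdeal ↔ algebraMap O (𝓞 K) x ∈ w.asIdeal
    rw [← hs, l1b_mem]
  have h1 := PsiT_prime w v rfl
  have h2 := PsiT_prime w' v' rfl
  have h3 := absNorm_inertia K w v rfl
  have h4 := absNorm_inertia K w' v' rfl
  have h5 : Ideal.absNorm w'.asIdeal = Ideal.absNorm w.asIdeal := l1b_norm c _
  have h6 : Ideal.absNorm v'.asIdeal = Ideal.absNorm v.asIdeal := l1b_normO _ _ hv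
  rw [h5, h3, h6] at h4
  have h7 : 1 < Ideal.absNorm v.asIdeal := by
    have h8 : Ideal.absNorm v.asIdeal ≠ 1 := by
      rw [Ne, Ideal.absNorm_eq_one_iff]
      exact hvp.ne_top
    have h9 : Ideal.absNorm v.asIdeal ≠ 0 := by
      rw [Ne, Ideal.absNorm_eq_zero_iff]
      exact v.ne_bot
    omega
  have h8 := Nat.pow_right_injective h7 h4
  have h9 : PsiT K (cI c w.asIdeal) = psiT v'.asIdeal ^ w'.asIdeal.inertiaDeg O := h2
  rw [h9, h1, map_pow, psiT_cj v.asIdeal v'.asIdeal hv, h8]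

omit [NumberField K₀] in
theorem PsiT_c (c : K ≃ₐ[K₀] K)
    (hc : ∀ x : O, c (algebraMap O K x) = algebraMap O K (cj x)) (a : Ideal (𝓞 K)) :
    PsiT K (cI c a) = (starRingEnd ℂ) (PsiT K a) := by
  induction a using UniqueFactorizationMonoid.induction_on_prime with
  | h₁ =>
    have : cI c (0 : Ideal (𝓞 K)) = 0 := by
      unfold cI
      rw [Ideal.zero_eq_bot, Ideal.map_bot]
    rw [this, map_zero, map_zero]
  | h₂ x hx =>
    rw [Ideal.isUnit_iff] at hx
    have : cI c (1 : Ideal (𝓞 K)) = 1 := by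
      unfold cI
      rw [Ideal.one_eq_top, Ideal.map_top]
    rw [hx, ← Ideal.one_eq_top, this, map_one, map_one]
  | h₃ a p ha hp ih =>
    have : cI c (p * a) = cI c p * cI c a := by
      unfold cI
      rw [Ideal.map_mul]
    have hp0 : p ≠ ⊥ := hp.ne_zero
    have hp1 : p.IsPrime := Ideal.isPrime_of_prime hp
    rw [this, map_mul, map_mul, map_mul, ih, l1b_prime c hc ⟨p, hp1, hp0⟩]

end H13N
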