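import Mathlib
import Pool.Agent.Lib.H13E.Q1
import Pool.Agent.Lib.H13N.L1b

open NumberField IsDedekindDomain

namespace H13N

open H55B H35T H55N H19T H13E

variable {K₀ K : Type} [Field K₀] [NumberField K₀] [Field K] [NumberField K] [Algebra F K] [Algebra K₀ K]

/-! Chunk L1 (S): the coefficients are real. -/

omit [NumberField K₀] [NumberField K] [Algebra F K] in
theorem l1_invol (c : K ≃ₐ[K₀] K) (hcc : ∀ z, c (c z) = z) (a : Ideal (𝓞 K)) :
    cI c (cI c a) = a := by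
  ext x
  have hx : RingOfIntegers.mapRingEquiv (c : K ≃+* K)
      (RingOfIntegers.mapRingEquiv (c : K ≃+* K) x) = x := by
    apply RingOfIntegers.ext
    rw [RingOfIntegers.mapRingEquiv_apply, RingOfIntegers.mapRingEquiv_apply]
    exact hcc x
  conv_lhs => rw [← hx, l1b_mem, l1b_mem]

theorem AI_real (hQ : Quad K₀ K) :
    AI (fun a => (starRingEnd ℂ) (PsiT K a)) = AI (PsiT K) := by
  obtain ⟨c, -, hc, hcc, -, -⟩ := exists_c hQ
  let e : Ideal (𝓞 K) ≃ Ideal (𝓞 K) :=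
    ⟨cI c, cI c, l1_invol c hcc, l1_invol c hcc⟩
  ext n
  show (if n = 0 then (0 : ℂ) else ∑ᶠ (a : Ideal (𝓞 K)) (_ : Ideal.absNorm a = n),
    (starRingEnd ℂ) (PsiT K a)) = if n = 0 then (0 : ℂ) else
    ∑ᶠ (a : Ideal (𝓞 K)) (_ : Ideal.absNorm a = n), PsiT K a
  congr 1
  rw [← finsum_comp_equiv e (f := fun a => ∑ᶠ (_ : Ideal.absNorm a = n), PsiT K a)]
  refine finsum_congr fun a => ?_
  show _ = ∑ᶠ (_ : Ideal.absNorm (cI c a) = n), PsiT K (cI c a)
  rw [l1b_norm, PsiT_c c hc]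

end H13N
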