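import Mathlib
import Pool.Agent.Lib.H13E.C4
import Pool.Agent.Lib.H13N.L1
import Pool.Agent.Lib.H19T.A3

open NumberField IsDedekindDomain

namespace H13N

open H55B H35T H55N H19T H13E

variable {K₀ K : Type} [Field K₀] [NumberField K₀] [Field K] [NumberField K] [Algebra F K] [Algebra K₀ K]

/-! Chunk L2 (S/M): the L-function of E144 over K₀ (not containing F) is the L-series of PsiT K, K = K₀ F. -/

theorem l2_one : AI (PsiT K) 1 = 1 := by
  show (if (1 : ℕ) = 0 then (0 : ℂ) else ∑ᶠ (a : Ideal (𝓞 K)) (_ : Ideal.absNorm a = 1),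
    PsiT K a) = 1
  rw [if_neg one_ne_zero, finsum_eq_single _ (1 : Ideal (𝓞 K))]
  · have h : Ideal.absNorm (1 : Ideal (𝓞 K)) = 1 := map_one _
    rw [finsum_eq_if, if_pos h, map_one]
  · intro a ha
    rw [finsum_eq_if, if_neg]
    intro h
    apply ha
    rw [Ideal.one_eq_top]
    exact Ideal.absNorm_eq_one_iff.1 h

theorem LFun0_eq (hQ : Quad K₀ K) (hU : UnrOut K) (n : ℕ) :
    (((E144.baseChange K₀).LFunction n : ℤ) : ℂ) = AI (PsiT K) n := by
  have h := sqrt_unique
    (f := (((E144.baseChange K₀).LFunction : ArithmeticFunction ℤ) : ArithmeticFunction ℂ))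
    (g := AI (PsiT K)) (by
      rw [ArithmeticFunction.intCoe_apply]
      exact C4_LFun_one K₀) l2_one (by
      intro n
      rw [← LFun_sq hQ hU n, LFunction_PsiT K hU n, AI_real hQ])
  rw [← h, ArithmeticFunction.intCoe_apply]

end H13N
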