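import Mathlib
import Pool.Agent.Lib.H13E.T9
import Pool.Agent.Lib.H13E.V1
import Pool.Agent.Lib.H13N.L2
import Pool.Agent.Lib.H19T.A4
import Pool.Agent.Lib.H35T.W13

open NumberField IsDedekindDomain

namespace H13N

open H55B H35T H55N H19T H13E

/-- The analytic part over K₀. -/
def AnP (K₀ : Type) [Field K₀] [NumberField K₀] : Prop :=
  ∃ Λ : ℂ → ℂ, AnalyticOnNhd ℂ Λ {s | 1 / 2 < s.re} ∧
    (∀ s : ℂ, 3 / 2 < s.re →
      LSeriesSummable (fun n => (((E144.baseChange K₀).LFunction n : ℤ) : ℂ)) s ∧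
      Λ s = (E144.baseChange K₀).LSeries s) ∧ Λ 1 ≠ 0 ∧
    Unit3 (Λ 1 / (R (e om - 1) * e sq3) ^ Module.finrank ℚ K₀)

variable {K₀ K : Type} [Field K₀] [NumberField K₀] [Field K] [NumberField K] [Algebra F K] [Algebra K₀ K]

/-! Chunk L3 (S/M): values. -/

theorem L_valN (hQ : Quad K₀ K) (hU : UnrOut K) (h : LVT (PsiT K)) : AnP K₀ := by
  obtain ⟨L, hLa, hLs, hL1⟩ := h
  have hval : Unit3 (L 1 / (R (e om - 1) * e sq3) ^ Module.finrank ℚ K₀) := by
    rw [← rank_rel hQ, mul_comm (R (e om - 1))]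
    exact hL1
  refine ⟨L, hLa, ?_, (div_ne_zero_iff.1 hval.ne_zero).1, hval⟩
  intro z hz
  have h0 : PsiT K ⊥ = 0 := (PsiT K).map_zero
  have h1 := AI_LSeries (fun a => PsiT K a) h0 z (tm_summable _ PsiT_norm_le z hz)
  have e1 : ∑' a, tm (fun a => PsiT K a) z a = L z := (hLs z hz).tsum_eq
  rw [e1] at h1
  have e3 : (fun n => (((E144.baseChange K₀).LFunction n : ℤ) : ℂ)) = fun n => AI (PsiT K) n :=
    funext fun n => LFun0_eq hQ hU n
  have key : LSeriesHasSum (fun n => (((E144.baseChange K₀).LFunction n : ℤ) : ℂ)) z (L z) := by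
    rw [e3]
    exact h1
  exact ⟨key.LSeriesSummable, key.LSeries_eq.symm⟩

theorem L_valF (K : Type) [Field K] [NumberField K] [Algebra F K] (hU : UnrOut K)
    (h : LVT (PsiT K)) : AnP K := by
  obtain ⟨Λ, h1, h2, h3, h4⟩ := L_valT K hU h
  refine ⟨Λ, h1, h2, h3, ?_⟩
  have e1 : (R (e om - 1) * e sq3) ^ 2 =
      (-1) * (3 * R (e om - 1) * (starRingEnd ℂ) (R (e om - 1))) := by
    rw [R_real, mul_pow, e_sq3]
    ring
  rw [T6_rankQ K, pow_mul, e1, mul_pow]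
  have h5 : Unit3 ((-1 : ℂ) ^ Module.finrank F K) := W13_neg _
  have h6 := h4.div h5
  rwa [div_div, mul_comm _ ((-1 : ℂ) ^ Module.finrank F K)] at h6

end H13N
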