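import Mathlib
import Pool.Agent.Lib.H13E.S5

open NumberField IsDedekindDomain

namespace H13N

open H55B H35T H13E

/-! Chunk M0 (S): the field K₀ F. -/

/-- If om is in the image of K₀ then K₀ contains F. -/
theorem m0_case1 (K₀ L : Type) [Field K₀] [NumberField K₀] [Field L] [NumberField L] [Algebra F L]
    [Algebra K₀ L] (hz : algebraMap O L om ∈ (algebraMap K₀ L).fieldRange) :
    ∃ (_ : Algebra F K₀), IsScalarTower F K₀ L := by
  have hmem := S5_mem L (algebraMap K₀ L).fieldRange hz
  have hbij : Function.Bijective (algebraMap K₀ L).rangeRestrictField := by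
    refine ⟨(algebraMap K₀ L).rangeRestrictField.injective, ?_⟩
    rintro ⟨y, x, rfl⟩
    exact ⟨x, rfl⟩
  let f : F →+* K₀ :=
    ((RingEquiv.ofBijective _ hbij).symm : (algebraMap K₀ L).fieldRange →+* K₀).comp
      ((algebraMap F L).codRestrict (algebraMap K₀ L).fieldRange hmem)
  have hf : ∀ x : F, algebraMap K₀ L (f x) = algebraMap F L x := by
    intro x
    have h1 : (RingEquiv.ofBijective _ hbij) (f x) =
        (algebraMap F L).codRestrict (algebraMap K₀ L).fieldRange hmem x :=
      (RingEquiv.ofBijective _ hbij).apply_symm_apply _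
    exact congrArg Subtype.val h1
  let i : Algebra F K₀ := f.toAlgebra
  exact ⟨i, IsScalarTower.of_algebraMap_eq fun x => (hf x).symm⟩

theorem exists_FK (K₀ L : Type) [Field K₀] [NumberField K₀] [Field L] [NumberField L] [Algebra F L]
    [Algebra K₀ L] :
    (∃ (_ : Algebra F K₀), IsScalarTower F K₀ L) ∨
    ∃ (K : Type) (_ : Field K) (_ : NumberField K) (_ : Algebra F K) (_ : Algebra K₀ K)
      (_ : Algebra K L) (_ : IsScalarTower F K L), Quad K₀ K := by
  by_cases hz : algebraMap O L om ∈ (algebraMap K₀ L).fieldRange
  · exact Or.inl (m0_case1 K₀ L hz)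
  · right
    have hrank := S5_rank K₀ L hz
    set K : IntermediateField K₀ L := IntermediateField.adjoin K₀ {algebraMap O L om} with hK
    have hfin : FiniteDimensional K₀ L := Module.Finite.of_restrictScalars_finite ℚ K₀ L
    have hNK : NumberField K := NumberField.of_module_finite K₀ K
    have hzK : algebraMap O L om ∈ (algebraMap K L).fieldRange := by
      refine ⟨⟨algebraMap O L om, ?_⟩, rfl⟩
      rw [hK]
      exact IntermediateField.mem_adjoin_simple_self K₀ _
    obtain ⟨i, hi⟩ := m0_case1 K L hzK
    refine ⟨K, inferInstance, hNK, i, inferInstance, inferInstance, hi, hrank, ?_⟩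
    intro x hx
    apply hz
    have hrel : (algebraMap O L om) ^ 2 + algebraMap O L om + 1 = 0 := by
      have h := congrArg (algebraMap O L) om_rel
      rwa [map_add, map_add, map_pow, map_one, map_zero] at h
    have hx' : (algebraMap K₀ L x) ^ 2 + algebraMap K₀ L x + 1 = 0 := by
      have h := congrArg (algebraMap K₀ L) hx
      rwa [map_add, map_add, map_pow, map_one, map_zero] at h
    have h2 : (algebraMap O L om - algebraMap K₀ L x) *
        (algebraMap O L om - (-1 - algebraMap K₀ L x)) = 0 := by
      linear_combination hrel - hx'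
    rcases mul_eq_zero.1 h2 with h | h
    · exact ⟨x, (sub_eq_zero.1 h).symm⟩
    · refine ⟨-1 - x, ?_⟩
      rw [map_sub, map_neg, map_one]
      exact (sub_eq_zero.1 h).symm

end H13N
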