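import Mathlib
import Pool.Agent.Lib.H13E.T6
import Pool.Agent.Lib.H13N.Defs

open NumberField IsDedekindDomain

namespace H13N

open H55B H35T H13E

variable {K₀ N : Type} [Field K₀] [NumberField K₀] [Field N] [NumberField N] [Algebra F N] [Algebra K₀ N]

/-! Chunk R1 (M): the real places of K₀. Adapt T6 (H13E/T6.lean, real_count): X = (N →+* ℂ), f : X → Inv(Gal(N/ℚ)) the complex conjugation at the embedding, equivariant, Inv is one conjugacy
class (inv_conj; the order of Gal(N/ℚ) is finrank ℚ N = 2 * 3^k, T6_rankQ), so every fibre of f has |X|/|Inv| elements, |X| = 2 * 3^k (fiber_card). The set Z of the embeddings i which are real on K₀ has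
nrRealPlaces K₀ * [N : K₀] elements (every embedding of K₀ has [N : K₀] extensions: adapt T6_fiber, AlgHom.card). i is real on K₀ iff f i fixes K₀, that is, f i is the restriction of scalars of an element of
Inv(Gal(N/K₀)); so |Z| is the sum over Inv(Gal(N/K₀)) of the sizes of the fibres. -/

omit [NumberField K₀] [NumberField N] [Algebra F N] [Algebra K₀ N] in
theorem r1_fib {X Y Z : Type} [Finite X] [Finite Z] (f : X → Y) (ρ : Z → Y)
    (hρ : Function.Injective ρ) (c : ℕ) (hc : ∀ y, Nat.card {x : X // f x = y} = c) :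
    Nat.card {x : X // ∃ z, ρ z = f x} = Nat.card Z * c := by
  classical
  let g : {x : X // ∃ z, ρ z = f x} → Z := fun x => x.2.choose
  have hg : ∀ x, ρ (g x) = f x.1 := fun x => x.2.choose_spec
  have h1 : Nat.card {x : X // ∃ z, ρ z = f x} =
      Nat.card (Σ z : Z, {x : {x : X // ∃ z, ρ z = f x} // g x = z}) :=
    (Nat.card_congr (Equiv.sigmaFiberEquiv g)).symm
  have h2 : ∀ z : Z, Nat.card {x : {x : X // ∃ z, ρ z = f x} // g x = z} = c := by
    intro z
    rw [← hc (ρ z)]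
    exact Nat.card_congr ⟨fun x => ⟨x.1.1, by rw [← hg, x.2]⟩,
      fun y => ⟨⟨y.1, z, y.2.symm⟩, hρ (by rw [hg]; exact y.2)⟩,
      fun x => rfl, fun y => rfl⟩
  have := Fintype.ofFinite Z
  rw [h1, Nat.card_sigma, Finset.sum_congr rfl (fun j _ => h2 j), Finset.sum_const,
    Finset.card_univ, Nat.card_eq_fintype_card, smul_eq_mul]

omit [Algebra F N] in
theorem r1_fiber (j : K₀ →+* ℂ) :
    Nat.card {i : N →+* ℂ // i.comp (algebraMap K₀ N) = j} = Module.finrank K₀ N := by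
  let := j.toAlgebra
  have hfd : FiniteDimensional K₀ N := by infer_instance
  have h1 : Nat.card (N →ₐ[K₀] ℂ) = Module.finrank K₀ N := by
    rw [Nat.card_eq_fintype_card, AlgHom.card]
  rw [← h1]
  refine Nat.card_congr ⟨fun i => { i.1 with commutes' := fun r => ?_ },
    fun φ => ⟨φ.toRingHom, ?_⟩, fun i => ?_, fun φ => ?_⟩
  · have := congrArg (fun ψ : K₀ →+* ℂ => ψ r) i.2
    exact this
  · ext r
    exact φ.commutes r
  · rfl
  · rfl

omit [Algebra F N] in
theorem r1_real : Nat.card {i : N →+* ℂ // ComplexEmbedding.IsReal (i.comp (algebraMap K₀ N))} =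
    InfinitePlace.nrRealPlaces K₀ * Module.finrank K₀ N := by
  classical
  have h1 : Nat.card {i : N →+* ℂ // ComplexEmbedding.IsReal (i.comp (algebraMap K₀ N))} =
      Nat.card (Σ j : {j : K₀ →+* ℂ // ComplexEmbedding.IsReal j},
        {x : {i : N →+* ℂ // ComplexEmbedding.IsReal (i.comp (algebraMap K₀ N))} //
          (⟨x.1.comp (algebraMap K₀ N), x.2⟩ :
            {j : K₀ →+* ℂ // ComplexEmbedding.IsReal j}) = j}) :=
    (Nat.card_congr (Equiv.sigmaFiberEquiv _)).symm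
  have h2 : ∀ j : {j : K₀ →+* ℂ // ComplexEmbedding.IsReal j},
      Nat.card {x : {i : N →+* ℂ // ComplexEmbedding.IsReal (i.comp (algebraMap K₀ N))} //
          (⟨x.1.comp (algebraMap K₀ N), x.2⟩ :
            {j : K₀ →+* ℂ // ComplexEmbedding.IsReal j}) = j} = Module.finrank K₀ N := by
    intro j
    rw [← r1_fiber (N := N) j.1]
    exact Nat.card_congr ⟨fun x => ⟨x.1.1, congrArg Subtype.val x.2⟩,
      fun y => ⟨⟨y.1, by rw [y.2]; exact j.2⟩, Subtype.ext y.2⟩,
      fun x => rfl, fun y => rfl⟩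
  rw [h1, Nat.card_sigma, Finset.sum_congr rfl (fun j _ => h2 j), Finset.sum_const,
    Finset.card_univ, InfinitePlace.card_real_embeddings, smul_eq_mul]

theorem real_countN {k : ℕ} (hN : GalN N k) :
    InfinitePlace.nrRealPlaces K₀ * Module.finrank K₀ N * Nat.card (Inv (N ≃ₐ[ℚ] N)) =
      2 * 3 ^ k * Nat.card (Inv (N ≃ₐ[K₀] N)) := by
  have hGQ := hN.gal
  have hcard : Nat.card (N ≃ₐ[ℚ] N) = 2 * 3 ^ k := by
    rw [IsGalois.card_aut_eq_finrank, T6_rankQ N, hN.deg]
  have hodd : ¬ 2 ∣ 3 ^ k := by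
    intro h
    have := Nat.prime_two.dvd_of_dvd_pow h
    omega
  let a1 := T6_act N
  let a2 := T6_act2 (N ≃ₐ[ℚ] N)
  -- complex conjugation at an embedding
  have hex : ∀ i : N →+* ℂ, ∃ γ : N ≃ₐ[ℚ] N, ∀ z, i (γ z) = (starRingEnd ℂ) (i z) := by
    intro i
    have h1 : i.comp (algebraMap ℚ N) = ((starRingEnd ℂ).comp i).comp (algebraMap ℚ N) :=
      Subsingleton.elim _ _
    obtain ⟨σ, hσ⟩ := ComplexEmbedding.exists_comp_symm_eq_of_comp_eq i _ h1
    exact ⟨σ.symm, fun z => congrArg (fun φ : N →+* ℂ => φ z) hσ⟩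
  have hprop : ∀ (i : N →+* ℂ) (γ : N ≃ₐ[ℚ] N), (∀ z, i (γ z) = (starRingEnd ℂ) (i z)) →
      γ ≠ 1 ∧ γ * γ = 1 := by
    intro i γ h
    constructor
    · rintro rfl
      apply T6_nonreal i
      ext z
      exact (h z).symm
    · ext z
      apply i.injective
      change i (γ (γ z)) = i z
      rw [h, h, Complex.conj_conj]
  choose f0 hf0 using hex
  let f : (N →+* ℂ) → Inv (N ≃ₐ[ℚ] N) := fun i => ⟨f0 i, hprop i _ (hf0 i)⟩
  have huniq : ∀ (i : N →+* ℂ) (γ : N ≃ₐ[ℚ] N), (∀ z, i (γ z) = (starRingEnd ℂ) (i z)) →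
      f0 i = γ := by
    intro i γ h
    ext z
    apply i.injective
    rw [hf0, h]
  have hf : ∀ (g : N ≃ₐ[ℚ] N) (i : N →+* ℂ), f (g • i) = g • f i := by
    intro g i
    apply Subtype.ext
    change f0 (g • i) = g * f0 i * g⁻¹
    apply huniq
    intro z
    change i (g⁻¹ (g (f0 i (g⁻¹ z)))) = (starRingEnd ℂ) (i (g⁻¹ z))
    rw [← hf0]
    congr 1
    change (g⁻¹ * g) (f0 i (g⁻¹ z)) = _
    rw [inv_mul_cancel]
    rfl
  have ht : ∀ γ δ : Inv (N ≃ₐ[ℚ] N), ∃ g : N ≃ₐ[ℚ] N, g • γ = δ := by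
    intro γ δ
    obtain ⟨g, hg⟩ := inv_conj (3 ^ k) hodd hcard γ.1 δ.1 γ.2 δ.2
    exact ⟨g, Subtype.ext hg⟩
  have h3 : Nat.card (N →+* ℂ) = 2 * 3 ^ k := by
    rw [Nat.card_eq_fintype_card, Embeddings.card, T6_rankQ N, hN.deg]
  -- the fibres
  have hfin : Finite (Inv (N ≃ₐ[ℚ] N)) := Subtype.finite
  have i₀ : Nonempty (N →+* ℂ) := by
    have : Nat.card (N →+* ℂ) ≠ 0 := by
      rw [h3]
      positivity
    exact (Nat.card_ne_zero.1 this).1
  obtain ⟨i₀⟩ := i₀
  set c : ℕ := Nat.card {x : N →+* ℂ // f x = f i₀} with hc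
  have hY : Nat.card (N →+* ℂ) = Nat.card (Inv (N ≃ₐ[ℚ] N)) * c := fiber_card f hf ht (f i₀)
  have hYpos : 0 < Nat.card (Inv (N ≃ₐ[ℚ] N)) := Nat.card_pos_iff.2 ⟨⟨f i₀⟩, hfin⟩
  have hcc : ∀ y, Nat.card {x : N →+* ℂ // f x = y} = c := by
    intro y
    have h4 := fiber_card f hf ht y
    rw [hY] at h4
    exact (Nat.eq_of_mul_eq_mul_left hYpos h4).symm
  -- restriction of scalars
  let ρ : Inv (N ≃ₐ[K₀] N) → Inv (N ≃ₐ[ℚ] N) := fun γ => ⟨AlgEquiv.restrictScalars ℚ γ.1, by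
    intro h
    apply γ.2.1
    ext z
    exact congrArg (fun σ : N ≃ₐ[ℚ] N => σ z) h, by
    ext z
    exact congrArg (fun σ : N ≃ₐ[K₀] N => σ z) γ.2.2⟩
  have hρ : Function.Injective ρ := by
    intro γ δ h
    apply Subtype.ext
    ext z
    exact congrArg (fun σ : Inv (N ≃ₐ[ℚ] N) => σ.1 z) h
  have hfin0 : Finite (Inv (N ≃ₐ[K₀] N)) := Finite.of_injective ρ hρ
  have hkey : ∀ i : N →+* ℂ, ComplexEmbedding.IsReal (i.comp (algebraMap K₀ N)) ↔
      ∃ z, ρ z = f i := by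
    intro i
    rw [ComplexEmbedding.isReal_iff]
    constructor
    · intro h
      have hcomm : ∀ r : K₀, f0 i (algebraMap K₀ N r) = algebraMap K₀ N r := by
        intro r
        apply i.injective
        rw [hf0]
        exact congrArg (fun φ : K₀ →+* ℂ => φ r) h
      let γ : N ≃ₐ[K₀] N := AlgEquiv.ofRingEquiv (f := (f0 i).toRingEquiv) hcomm
      have hγ : ∀ z, γ z = f0 i z := fun z => rfl
      refine ⟨⟨γ, ?_, ?_⟩, ?_⟩
      · intro h1
        apply (f i).2.1
        ext z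
        show f0 i z = z
        rw [← hγ, h1]
        rfl
      · ext z
        show γ (γ z) = z
        rw [hγ, hγ]
        exact congrArg (fun σ : N ≃ₐ[ℚ] N => σ z) (f i).2.2
      · apply Subtype.ext
        ext z
        rfl
    · rintro ⟨γ, hγ⟩
      ext r
      have h1 : f0 i (algebraMap K₀ N r) = algebraMap K₀ N r := by
        have h2 : (ρ γ).1 (algebraMap K₀ N r) = algebraMap K₀ N r := γ.1.commutes r
        rw [hγ] at h2
        exact h2
      have h3 := hf0 i (algebraMap K₀ N r)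
      rw [h1] at h3
      exact h3.symm
  have h5 := r1_fib f ρ hρ c hcc
  have h6 : Nat.card {i : N →+* ℂ // ComplexEmbedding.IsReal (i.comp (algebraMap K₀ N))} =
      Nat.card {x : N →+* ℂ // ∃ z, ρ z = f x} :=
    Nat.card_congr (Equiv.subtypeEquivRight hkey)
  rw [← r1_real, h6, h5, ← h3, hY]
  ring

end H13N
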