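import Mathlib
import Pool.Agent.Lib.H13E.T7
import Pool.Agent.Lib.H13N.R1

open NumberField IsDedekindDomain

namespace H13N

open H55B H35T H13E

variable {K₀ N : Type} [Field K₀] [NumberField K₀] [Field N] [NumberField N] [Algebra F N] [Algebra K₀ N]

/-! Chunk R2 (M): the primes above 3. Adapt T7 (H13E/T7.lean, prime_count; T7_exists, T7_act, T7_conj, T7_finite are reusable): φ : W3 → Inv(Gal(N/ℚ)) sends w to the generator of its inertia group (of order 2);
φ is equivariant and every fibre has |W3|/|Inv| elements (fiber_card, inv_conj; the order of Gal(N/ℚ) is 2 * 3^k). w is in WI iff φ w is (the restriction of scalars of) an element of Inv(Gal(N/K₀)):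
a non-trivial element of Gal(N/K₀) in the inertia group is equal to φ w, T7_exists. So |WI| is the sum over Inv(Gal(N/K₀)) of the sizes of the fibres. -/

open scoped Pointwise in
theorem prime_countN {k : ℕ} (hN : GalN N k) :
    Nat.card (WI K₀ N) * Nat.card (Inv (N ≃ₐ[ℚ] N)) =
      Nat.card (W3 N) * Nat.card (Inv (N ≃ₐ[K₀] N)) := by
  have hGQ := hN.gal
  have hcard : Nat.card (N ≃ₐ[ℚ] N) = 2 * 3 ^ k := by
    rw [IsGalois.card_aut_eq_finrank, T6_rankQ N, hN.deg]
  letI := T7_act (K := N)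
  letI := T7_conj (K := N)
  haveI := T7_finite (K := N)
  have hfin : Finite (N ≃ₐ[ℚ] N) := inferInstance
  haveI : Finite (T7_Y N) := Subtype.finite
  choose f hf1 hf2 hf3 using fun w : T7_X N => T7_exists hGQ hN.unr w.1 w.2
  let φ : T7_X N → T7_Y N := fun w => ⟨f w, hf1 w, hf2 w⟩
  have hequi : ∀ (g : N ≃ₐ[ℚ] N) (x : T7_X N), φ (g • x) = g • φ x := by
    intro g x
    apply Subtype.ext
    show f (T7_smul g x) = g * f x * g⁻¹
    have hne : g * f x * g⁻¹ ≠ 1 := by
      intro h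
      apply hf1 x
      have h1 : f x = g⁻¹ * (g * f x * g⁻¹) * g := by group
      rw [h1, h]
      group
    rw [← hf3 (T7_smul g x) _ hne]
    intro y
    have h1 := (hf3 x (f x) (hf1 x)).2 rfl (g⁻¹ • y)
    show _ ∈ g • x.1.asIdeal
    rw [Ideal.mem_pointwise_smul_iff_inv_smul_mem, smul_sub, smul_smul]
    have h2 : g⁻¹ * (g * f x * g⁻¹) = f x * g⁻¹ := by group
    rw [h2, ← smul_smul]
    exact h1
  have htrans : ∀ y z : T7_Y N, ∃ g : N ≃ₐ[ℚ] N, g • y = z := by
    intro y z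
    obtain ⟨g, hg⟩ := inv_conj (3 ^ k) (by
      intro h
      exact absurd (Nat.Prime.dvd_of_dvd_pow Nat.prime_two h) (by norm_num)) hcard
      y.1 z.1 y.2 z.2
    exact ⟨g, Subtype.ext hg⟩
  -- restriction of scalars
  let ρ : Inv (N ≃ₐ[K₀] N) → T7_Y N := fun γ => ⟨AlgEquiv.restrictScalars ℚ γ.1, by
    intro h
    apply γ.2.1
    ext z
    exact congrArg (fun σ : N ≃ₐ[ℚ] N => σ z) h, by
    ext z
    exact congrArg (fun σ : N ≃ₐ[K₀] N => σ z) γ.2.2⟩
  have hρ : Function.Injective ρ := by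
    intro γ δ h
    apply Subtype.ext
    ext z
    exact congrArg (fun σ : T7_Y N => σ.1 z) h
  have hfin0 : Finite (Inv (N ≃ₐ[K₀] N)) := Finite.of_injective ρ hρ
  have hkey : ∀ x : T7_X N, (∃ γ : N ≃ₐ[K₀] N, γ ≠ 1 ∧ ∀ y : 𝓞 N, γ • y - y ∈ x.1.asIdeal) ↔
      ∃ z, ρ z = φ x := by
    intro x
    constructor
    · rintro ⟨γ, hγ1, hγ⟩
      have hne : (AlgEquiv.restrictScalars ℚ γ : N ≃ₐ[ℚ] N) ≠ 1 := by
        intro h
        apply hγ1
        ext z
        exact congrArg (fun σ : N ≃ₐ[ℚ] N => σ z) h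
      have h1 : f x = AlgEquiv.restrictScalars ℚ γ := (hf3 x _ hne).1 hγ
      have h2 : γ * γ = 1 := by
        have h3 := hf2 x
        rw [h1] at h3
        ext z
        exact congrArg (fun σ : N ≃ₐ[ℚ] N => σ z) h3
      exact ⟨⟨γ, hγ1, h2⟩, Subtype.ext h1.symm⟩
    · rintro ⟨z, hz⟩
      have h1 : f x = AlgEquiv.restrictScalars ℚ z.1 := (congrArg Subtype.val hz).symm
      exact ⟨z.1, z.2.1, (hf3 x _ (ρ z).2.1).2 h1⟩
  have hWI : Nat.card (WI K₀ N) = Nat.card {x : T7_X N // ∃ z, ρ z = φ x} :=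
    Nat.card_congr
      { toFun := fun w => ⟨⟨w.1, w.2.1⟩, (hkey _).1 w.2.2⟩
        invFun := fun x => ⟨x.1.1, x.1.2, (hkey x.1).2 x.2⟩
        left_inv := fun x => rfl
        right_inv := fun x => rfl }
  by_cases hemp : Nonempty (T7_X N)
  · obtain ⟨x₀⟩ := hemp
    have hY := fiber_card φ hequi htrans (φ x₀)
    have hYpos : 0 < Nat.card (T7_Y N) := Nat.card_pos_iff.2 ⟨⟨φ x₀⟩, inferInstance⟩
    have hcc : ∀ y, Nat.card {x : T7_X N // φ x = y} = Nat.card {x : T7_X N // φ x = φ x₀} := by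
      intro y
      have h4 := fiber_card φ hequi htrans y
      rw [hY] at h4
      exact (Nat.eq_of_mul_eq_mul_left hYpos h4).symm
    have h5 := r1_fib φ ρ hρ _ hcc
    rw [hWI, h5]
    have h6 : Nat.card (W3 N) = Nat.card (T7_Y N) * Nat.card {x : T7_X N // φ x = φ x₀} := hY
    rw [h6]
    ring
  · have h7 : Nat.card (W3 N) = 0 := Nat.card_eq_zero.2 (Or.inl (not_nonempty_iff.1 hemp))
    have h8 : Nat.card (WI K₀ N) = 0 := by
      rw [hWI, Nat.card_eq_zero]
      left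
      exact ⟨fun x => hemp ⟨x.1⟩⟩
    rw [h7, h8, zero_mul, zero_mul]

end H13N
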