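import Mathlib
import Pool.Agent.Lib.H13E.T8
import Pool.Agent.Lib.H13N.Defs

open NumberField IsDedekindDomain

namespace H13N

open H55B H35T H13E

variable {K₀ N : Type} [Field K₀] [NumberField K₀] [Field N] [NumberField N] [Algebra F N] [Algebra K₀ N]

/-! Chunk R3a (M): at a prime w above 3 the different D = differentIdeal (𝓞 K₀) (𝓞 N) is not divisible by w^2.
differentIdeal ℤ (𝓞 N) = D * (differentIdeal ℤ (𝓞 K₀)).map = differentIdeal O (𝓞 N) * (differentIdeal ℤ O).map
(transitivity: differentIdeal_eq_differentIdeal_mul_differentIdeal, see H13E/T8.lean, H35T/W7.lean, H55C/W7.lean). So w^2 | D implies w^2 | differentIdeal O (𝓞 N) * (differentIdeal ℤ O).map;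
w does not divide differentIdeal O (𝓞 N) (UnrOut hN.unr, the prime below w is not Good because it contains 3: not_dvd_differentIdeal_iff or
dvd_differentIdeal_iff and ramificationIdx_eq_one_iff as in t8_iff), so w^2 divides (differentIdeal ℤ O).map, which contains 2 om + 1 (as in t8_mem: X^2 + X + 1 and
aeval_derivative_mem_differentIdeal), whose valuation at w is exp(-1): t8_sq, val_three, end of t8_not. -/

open Polynomial in
theorem r3_min : (X ^ 2 + X + 1 : ℤ[X]) = minpoly ℤ om := by
  have h1 := cyclotomic_eq_minpoly zeta_spec (by norm_num)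
  rw [cyclotomic_three] at h1
  rw [h1]
  have h2 : algebraMap O F om = IsCyclotomicExtension.zeta 3 ℚ F := rfl
  rw [← h2]
  exact minpoly.algebraMap_eq (FaithfulSMul.algebraMap_injective O F) om

open Polynomial in
theorem r3_lam : 2 * om + 1 ∈ differentIdeal ℤ O := by
  have h := aeval_derivative_mem_differentIdeal ℤ ℚ F om
    (IsCyclotomicExtension.adjoin_primitive_root_eq_top zeta_spec)
  rw [← r3_min] at h
  have h2 : aeval om (derivative (X ^ 2 + X + 1 : ℤ[X])) = 2 * om + 1 := by
    rw [derivative_add, derivative_add, derivative_X_pow, derivative_X, derivative_one, add_zero,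
      map_add, map_mul, map_pow, aeval_X, aeval_C, map_one, pow_one]
    norm_num
  rwa [h2] at h

theorem r3_sqf {k : ℕ} (hN : GalN N k) (w : HeightOneSpectrum (𝓞 N)) (h3 : (3 : 𝓞 N) ∈ w.asIdeal) :
    ¬ differentIdeal (𝓞 K₀) (𝓞 N) ≤ w.asIdeal ^ 2 := by
  intro h
  have hU := hN.unr
  have hwp := w.isPrime
  -- transitivity
  have e1 : differentIdeal ℤ (𝓞 N) = differentIdeal (𝓞 K₀) (𝓞 N) *
      (differentIdeal ℤ (𝓞 K₀)).map (algebraMap (𝓞 K₀) (𝓞 N)) :=
    differentIdeal_eq_differentIdeal_mul_differentIdeal ℤ (𝓞 K₀) (𝓞 N)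
  have e2 : differentIdeal ℤ (𝓞 N) = differentIdeal O (𝓞 N) *
      (differentIdeal ℤ O).map (algebraMap O (𝓞 N)) :=
    differentIdeal_eq_differentIdeal_mul_differentIdeal ℤ O (𝓞 N)
  have d1 : w.asIdeal ^ 2 ∣ differentIdeal O (𝓞 N) *
      (differentIdeal ℤ O).map (algebraMap O (𝓞 N)) := by
    rw [← e2, e1]
    exact Dvd.dvd.mul_right (Ideal.dvd_iff_le.2 h) _
  -- w is unramified over O
  have h3v : (3 : O) ∈ w.asIdeal.under O := by
    rw [Ideal.under_def, Ideal.mem_comap, map_ofNat]
    exact h3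
  have hvne : w.asIdeal.under O ≠ ⊥ := by
    intro h
    rw [h, Ideal.mem_bot] at h3v
    norm_num at h3v
  let v : HeightOneSpectrum O := ⟨w.asIdeal.under O, inferInstance, hvne⟩
  have hgood : ¬ Good v := fun h => h.2.1 h3v
  have he : w.asIdeal.ramificationIdx O = 1 := hU w v rfl hgood
  have hun := Ideal.ramificationIdx_eq_one_iff.1 he
  have hnd : ¬ w.asIdeal ∣ differentIdeal O (𝓞 N) := fun hd => (dvd_differentIdeal_iff.1 hd) hun
  have hprime : Prime w.asIdeal := w.prime
  have d2 : w.asIdeal ^ 2 ∣ (differentIdeal ℤ O).map (algebraMap O (𝓞 N)) :=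
    hprime.pow_dvd_of_dvd_mul_left 2 hnd d1
  have h1 : algebraMap O (𝓞 N) (2 * om + 1) ∈ w.asIdeal ^ 2 :=
    Ideal.le_of_dvd d2 (Ideal.mem_map_of_mem _ r3_lam)
  have e3 : algebraMap O (𝓞 N) (2 * om + 1) = 2 * algebraMap O (𝓞 N) om + 1 := by
    rw [map_add, map_mul, map_one, map_ofNat]
  rw [e3, ← w.intValuation_le_pow_iff_mem] at h1
  have h2 := val_three hU w h3
  have h4 : w.intValuation (3 : 𝓞 N) = WithZero.exp (-2 : ℤ) := by
    rw [← h2, ← HeightOneSpectrum.valuation_of_algebraMap (K := N)]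
    congr 1
  have h5 := congrArg w.intValuation (t8_sq (K := N))
  rw [Valuation.map_neg, map_pow, h4] at h5
  have h6 := pow_le_pow_left₀ zero_le h1 2
  rw [h5, ← WithZero.exp_nsmul, WithZero.exp_le_exp] at h6
  norm_num at h6

end H13N
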