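import Mathlib
import Pool.Agent.Lib.H13E.S2Gen
import Pool.Agent.Lib.H13N.Defs

open NumberField IsDedekindDomain

namespace H13N

open H55B H35T H13E

variable {K₀ N : Type} [Field K₀] [NumberField K₀] [Field N] [NumberField N] [Algebra F N] [Algebra K₀ N]

/-! Chunk R3b (S): w divides the different iff the inertia group in Gal(N/K₀) is not trivial. -/

theorem r3_iff {k : ℕ} (hN : GalN N k) (w : HeightOneSpectrum (𝓞 N)) :
    differentIdeal (𝓞 K₀) (𝓞 N) ≤ w.asIdeal ↔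
      ∃ γ : N ≃ₐ[K₀] N, γ ≠ 1 ∧ ∀ y : 𝓞 N, γ • y - y ∈ w.asIdeal := by
  have hGQ := hN.gal
  have hG : IsGalois K₀ N := IsGalois.tower_top_of_isGalois ℚ K₀ N
  have hwm := w.isMaximal
  have hwp := w.isPrime
  have hl : w.asIdeal.LiesOver (w.asIdeal.under (𝓞 K₀)) := ⟨rfl⟩
  have hum : (w.asIdeal.under (𝓞 K₀)).IsMaximal := Ideal.IsMaximal.under _ _
  have hub : w.asIdeal.under (𝓞 K₀) ≠ ⊥ := Ideal.IsIntegral.comap_ne_bot _ w.ne_bot
  have hfin : Finite (𝓞 K₀ ⧸ w.asIdeal.under (𝓞 K₀)) :=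
    Ideal.finiteQuotientOfFreeOfNeBot _ hub
  have h1 : differentIdeal (𝓞 K₀) (𝓞 N) ≤ w.asIdeal ↔
      w.asIdeal.ramificationIdx (𝓞 K₀) ≠ 1 := by
    rw [← Ideal.dvd_iff_le, dvd_differentIdeal_iff, not_iff_not]
    exact Ideal.ramificationIdx_eq_one_iff.symm
  have h2 : Nat.card (w.asIdeal.inertia (N ≃ₐ[K₀] N)) = w.asIdeal.ramificationIdx (𝓞 K₀) := by
    rw [Ideal.card_inertia_eq_ramificationIdxIn (G := N ≃ₐ[K₀] N)
      (w.asIdeal.under (𝓞 K₀)) w.asIdeal,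
      Ideal.ramificationIdxIn_eq_ramificationIdx (w.asIdeal.under (𝓞 K₀)) w.asIdeal (N ≃ₐ[K₀] N)]
  rw [h1, ← h2]
  constructor
  · intro h
    by_contra hcon
    apply h
    have hI : w.asIdeal.inertia (N ≃ₐ[K₀] N) = ⊥ := by
      rw [eq_bot_iff]
      intro g hg
      rw [Subgroup.mem_bot]
      by_contra hg1
      exact hcon ⟨g, hg1, fun y => hg y⟩
    rw [hI, Subgroup.card_bot]
  · rintro ⟨γ, hγ1, hγ⟩ h5
    have hc : γ ∈ w.asIdeal.inertia (N ≃ₐ[K₀] N) := fun y => hγ y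
    rw [Subgroup.card_eq_one] at h5
    rw [h5, Subgroup.mem_bot] at hc
    exact hγ1 hc

end H13N
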