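import Mathlib
import Pool.Agent.Lib.H13N.R3a
import Pool.Agent.Lib.H13N.R3b
import Pool.Agent.Lib.H35T.W7

open NumberField IsDedekindDomain

namespace H13N

open H55B H35T H13E

variable {K₀ N : Type} [Field K₀] [NumberField K₀] [Field N] [NumberField N] [Algebra F N] [Algebra K₀ N]

/-! Chunk R3 (M): the discriminant. |disc N| = |disc K₀|^[N:K₀] * N(D), D = differentIdeal (𝓞 K₀) (𝓞 N) (as in disc_rel, H13E/T8.lean: NumberField.natAbs_discr_eq_absNorm_differentIdeal_mul_natAbs_discr_pow).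
Let D3 = D ⊔ span {3}; D <= D3, so D = D3 * D' (Ideal.dvd_iff_le). No prime w above 3 divides D': otherwise D <= w (D' divides D), 3 in w, so D3 <= w and D = D3 D' <= w^2, contradiction to r3_sqf;
so the norm of D' is prime to 3 (H35T.W7_max). D3 is squarefree (t8_sqf: D3 <= w^2 implies 3 in w and D <= w^2), D3 <= w iff D <= w and 3 in w iff w is in WI (r3_iff), all of norm 3^d: t8_norm (H13E/T8.lean).
m = absNorm D'. -/

theorem disc_relN {k : ℕ} (hN : GalN N k) (d : ℕ)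
    (hd : ∀ w : HeightOneSpectrum (𝓞 N), (3 : 𝓞 N) ∈ w.asIdeal → Ideal.absNorm w.asIdeal = 3 ^ d) :
    ∃ m : ℕ, ¬ 3 ∣ m ∧ (NumberField.discr N).natAbs =
      (NumberField.discr K₀).natAbs ^ Module.finrank K₀ N * 3 ^ (d * Nat.card (WI K₀ N)) * m := by
  set D := differentIdeal (𝓞 K₀) (𝓞 N) with hD
  have hDb : D ≠ ⊥ := differentIdeal_ne_bot
  set D3 : Ideal (𝓞 N) := D ⊔ Ideal.span {(3 : 𝓞 N)} with hD3
  have hle : D ≤ D3 := le_sup_left
  have h3D3 : (3 : 𝓞 N) ∈ D3 := Ideal.mem_sup_right (Ideal.mem_span_singleton_self _)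
  have hD3b : D3 ≠ ⊥ := by
    intro h
    rw [h] at hle
    exact hDb (le_bot_iff.1 hle)
  obtain ⟨D', hD'⟩ := Ideal.dvd_iff_le.2 hle
  have hD'b : D' ≠ ⊥ := by
    intro h
    apply hDb
    rw [hD', h, Ideal.mul_bot]
  have hiff : ∀ w : HeightOneSpectrum (𝓞 N), D3 ≤ w.asIdeal ↔ ((3 : 𝓞 N) ∈ w.asIdeal ∧
      ∃ γ : N ≃ₐ[K₀] N, γ ≠ 1 ∧ ∀ y : 𝓞 N, γ • y - y ∈ w.asIdeal) := by
    intro w
    rw [← r3_iff hN w, hD3, sup_le_iff, Ideal.span_singleton_le_iff_mem]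
    exact and_comm
  have hsq : ∀ w : HeightOneSpectrum (𝓞 N), ¬ D3 ≤ w.asIdeal ^ 2 := by
    intro w h
    have h3 : (3 : 𝓞 N) ∈ w.asIdeal := Ideal.pow_le_self (by norm_num) (h h3D3)
    exact r3_sqf (K₀ := K₀) hN w h3 (hle.trans h)
  have hnorm : Ideal.absNorm D3 = (3 ^ d) ^ Nat.card (WI K₀ N) := by
    apply t8_norm D3 hD3b (t8_sqf D3 hD3b hsq) _ _ hiff
    intro w hw
    exact hd w (hw h3D3)
  refine ⟨Ideal.absNorm D', ?_, ?_⟩
  · intro hdvd
    have hfin : Finite (𝓞 N ⧸ D') := Ideal.finiteQuotientOfFreeOfNeBot _ hD'b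
    have hdvd' : 3 ∣ Nat.card (𝓞 N ⧸ D') := by
      rwa [Ideal.absNorm_apply] at hdvd
    obtain ⟨M, hM, hDM, h3M⟩ := W7_max D' hdvd'
    have hMb : M ≠ ⊥ := by
      rintro rfl
      exact hD'b (le_bot_iff.1 hDM)
    have hle1 : D ≤ D' := by
      rw [hD']
      exact Ideal.mul_le_right (I := D3) (J := D')
    have h3 : D3 ≤ M := by
      rw [hD3, sup_le_iff, Ideal.span_singleton_le_iff_mem]
      exact ⟨hle1.trans hDM, h3M⟩
    refine r3_sqf (K₀ := K₀) hN ⟨M, hM.isPrime, hMb⟩ h3M ?_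
    rw [sq, ← hD, hD']
    exact Ideal.mul_mono h3 hDM
  · rw [NumberField.natAbs_discr_eq_absNorm_differentIdeal_mul_natAbs_discr_pow K₀ (𝓞 K₀) N (𝓞 N),
      ← hD]
    conv_lhs => rw [hD']
    rw [map_mul, hnorm, pow_mul]
    ring

end H13N
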