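import Mathlib
import Pool.Agent.Lib.H13N.R2
import Pool.Agent.Lib.H13N.R3

open NumberField IsDedekindDomain

namespace H13N

open H55B H35T H13E

variable {K₀ N : Type} [Field K₀] [NumberField K₀] [Field N] [NumberField N] [Algebra F N] [Algebra K₀ N]

/-! Chunk R4 (S): the 3-part of the discriminant of K₀ is 3^(r2). -/

theorem r4_exp {x y m m' : ℕ} (hm : ¬ 3 ∣ m) (hm' : ¬ 3 ∣ m') (h : 3 ^ x * m = 3 ^ y * m') :
    x = y := by
  rcases lt_trichotomy x y with h1 | h1 | h1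
  · exfalso
    obtain ⟨z, rfl⟩ := Nat.exists_eq_add_of_lt h1
    apply hm
    have h2 : 3 ^ x * m = 3 ^ x * (3 * (3 ^ z * m')) := by
      rw [h]
      ring
    have h3 := Nat.eq_of_mul_eq_mul_left (by positivity) h2
    exact ⟨_, h3⟩
  · exact h1
  · exfalso
    obtain ⟨z, rfl⟩ := Nat.exists_eq_add_of_lt h1
    apply hm'
    have h2 : 3 ^ y * m' = 3 ^ y * (3 * (3 ^ z * m)) := by
      rw [← h]
      ring
    have h3 := Nat.eq_of_mul_eq_mul_left (by positivity) h2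
    exact ⟨_, h3⟩

theorem r4_inv {k : ℕ} (hN : GalN N k) : 0 < Nat.card (Inv (N ≃ₐ[ℚ] N)) := by
  have hG := hN.gal
  have h1 : Nat.card (N ≃ₐ[ℚ] N) = 2 * 3 ^ k := by
    rw [IsGalois.card_aut_eq_finrank, T6_rankQ, hN.deg]
  have h2 : 2 ∣ Nat.card (N ≃ₐ[ℚ] N) := by
    rw [h1]
    exact Dvd.intro _ rfl
  obtain ⟨g, hg⟩ := exists_prime_orderOf_dvd_card' 2 h2
  have h3 : Nonempty (Inv (N ≃ₐ[ℚ] N)) := by
    refine ⟨g, ?_, ?_⟩
    · rintro rfl
      rw [orderOf_one] at hg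
      norm_num at hg
    · have := pow_orderOf_eq_one g
      rwa [hg, pow_two] at this
  have h4 : Finite (Inv (N ≃ₐ[ℚ] N)) := Subtype.finite
  exact Nat.card_pos

theorem disc0N {k : ℕ} (hN : GalN N k) : ∃ m : ℕ, ¬ 3 ∣ m ∧
    (NumberField.discr K₀).natAbs = 3 ^ InfinitePlace.nrComplexPlaces K₀ * m := by
  have hGQ := hN.gal
  have hGF : IsGalois F N := IsGalois.tower_top_of_isGalois ℚ F N
  obtain ⟨d, hd, hW⟩ := prime_norm hGF hN.unr
  have h1 := real_countN (K₀ := K₀) hN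
  have h2 := prime_countN (K₀ := K₀) hN
  obtain ⟨m, hm, h3⟩ := disc_relN (K₀ := K₀) hN d hd
  obtain ⟨m1, hm1, h4⟩ := discr_val N hN.unr
  have h5 := InfinitePlace.card_add_two_mul_card_eq_rank K₀
  have h6 := Module.finrank_mul_finrank ℚ K₀ N
  rw [T6_rankQ N, hN.deg, ← h5] at h6
  have hi := r4_inv hN
  have hD0 : (NumberField.discr K₀).natAbs ≠ 0 := Int.natAbs_ne_zero.2 (NumberField.discr_ne_zero K₀)
  have hh : 0 < Module.finrank K₀ N := Module.finrank_pos
  rw [hN.deg] at h4 hW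
  generalize Nat.card (WI K₀ N) = b at h2 h3
  generalize Nat.card (Inv (N ≃ₐ[ℚ] N)) = i at h1 h2 hi
  generalize Nat.card (Inv (N ≃ₐ[K₀] N)) = a at h1 h2
  generalize Nat.card {w : HeightOneSpectrum (𝓞 N) // (3 : 𝓞 N) ∈ w.asIdeal} = W at h2 hW
  generalize InfinitePlace.nrRealPlaces K₀ = r1 at h1 h6
  generalize InfinitePlace.nrComplexPlaces K₀ = r2 at h6 ⊢
  generalize (NumberField.discr K₀).natAbs = D at h3 hD0 ⊢
  generalize Module.finrank K₀ N = h at h1 h3 h6 hh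
  obtain ⟨v, m0, hm0, hD⟩ := Nat.exists_eq_pow_mul_and_not_dvd hD0 3 (by norm_num)
  have h7 : 3 ^ k = v * h + d * b := by
    rw [h4, hD, mul_pow, ← pow_mul] at h3
    refine r4_exp hm1 (m' := m0 ^ h * m) ?_ ?_
    · intro h8
      rcases (Nat.prime_three.dvd_mul).1 h8 with h9 | h9
      · exact hm0 (Nat.prime_three.dvd_of_dvd_pow h9)
      · exact hm h9
    · rw [h3, pow_add]
      ring
  have h8 : h * i * v + 3 ^ k * a = 3 ^ k * i := by
    calc h * i * v + 3 ^ k * a = h * i * v + d * (W * a) := by rw [← hW]; ring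
      _ = h * i * v + d * (b * i) := by rw [h2]
      _ = (v * h + d * b) * i := by ring
      _ = 3 ^ k * i := by rw [← h7]
  have h9 : h * i * r2 + 3 ^ k * a = 3 ^ k * i := by
    have h10 : 2 * (h * i * r2 + 3 ^ k * a) = 2 * (3 ^ k * i) := by
      calc 2 * (h * i * r2 + 3 ^ k * a) = 2 * (h * i * r2) + 2 * 3 ^ k * a := by ring
        _ = 2 * (h * i * r2) + r1 * h * i := by rw [h1]
        _ = (r1 + 2 * r2) * h * i := by ring
        _ = 2 * 3 ^ k * i := by rw [h6]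
        _ = 2 * (3 ^ k * i) := by ring
    exact Nat.eq_of_mul_eq_mul_left (by norm_num) h10
  have h10 : v = r2 := by
    have h11 : h * i * v = h * i * r2 := by omega
    exact Nat.eq_of_mul_eq_mul_left (Nat.mul_pos hh hi) h11
  exact ⟨m0, hm0, by rw [hD, h10]⟩

end H13N
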