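import Mathlib
import Pool.Agent.Lib.H13N.R4
import Pool.Agent.Lib.H13E.T10

open NumberField IsDedekindDomain

namespace H13N

open H55B H35T H13E

variable {K₀ N : Type} [Field K₀] [NumberField K₀] [Field N] [NumberField N] [Algebra F N] [Algebra K₀ N]

/-! Chunk R5 (S): the analytic order of Sha. Copy of shaAn0_unit (H13E/T10.lean) with disc0N and finrank ℚ K₀ = r1 + 2 r2. -/

theorem shaAn0_unitN {k : ℕ} (hN : GalN N k)
    (hE : ¬ 3 ∣ Nat.card (E144.baseChange K₀).toAffine.Point) (L1 : ℂ)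
    (hL : Unit3 (L1 / (R (e om - 1) * e sq3) ^ Module.finrank ℚ K₀)) (L : PeriodPair)
    (h2 : L.g₂ = 0) (h3 : L.g₃ = 4) : Unit3 (H13E.shaAn K₀ L L1) := by
  obtain ⟨m, hm, hD⟩ := disc0N (K₀ := K₀) (N := N) hN
  have hn : Module.finrank ℚ K₀ =
      InfinitePlace.nrRealPlaces K₀ + 2 * InfinitePlace.nrComplexPlaces K₀ :=
    (InfinitePlace.card_add_two_mul_card_eq_rank K₀).symm
  obtain ⟨ho, hOm⟩ := Omr_eq L h2 h3
  have hv := Omr_unit L h2 h3
  have ht := tam0_prod (K₀ := K₀) N hN.unr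
  have hE' := (Unit3.nat hE).pow 2
  rw [hn] at hL
  refine Unit3.of_pow (n := 2) (by norm_num) ?_
  have ho' : (Omr L : ℂ) ≠ 0 := by exact_mod_cast ho.ne'
  have hs : (((Real.sqrt |(NumberField.discr K₀ : ℝ)| : ℝ) : ℂ)) ^ 2 =
      3 ^ InfinitePlace.nrComplexPlaces K₀ * (m : ℂ) := by
    have h1 : (((Real.sqrt |(NumberField.discr K₀ : ℝ)| : ℝ) : ℂ)) ^ 2 =
        (((NumberField.discr K₀).natAbs : ℕ) : ℂ) := by
      rw [← Complex.ofReal_pow, Real.sq_sqrt (abs_nonneg _), ← Int.cast_abs, Int.abs_eq_natAbs]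
      simp only [Int.cast_natCast, Complex.ofReal_natCast]
    rw [h1, hD]
    push_cast
    rfl
  have hp : (Om L : ℂ) ^ 2 = 3 * (Omr L : ℂ) ^ 4 := by
    rw [hOm]
    have h4 : (Real.sqrt 3 * Omr L ^ 2) ^ 2 = 3 * Omr L ^ 4 := by
      rw [mul_pow, Real.sq_sqrt (by norm_num)]
      ring
    exact_mod_cast h4
  have hc : (R (e om - 1) * e sq3) ^ 2 = -3 * R (e om - 1) ^ 2 := by
    rw [mul_pow, e_sq3]
    ring
  unfold H13E.shaAn
  rw [T10_alg L1 _ _ _ _ _ (R (e om - 1) * e sq3) m (R (e om - 1)) _ _ ho' R0_ne hs hp hc]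
  exact (((((hL.pow 2).mul (W13_neg _)).mul (hv.pow _)).mul (Unit3.nat hm)).mul
    (hE'.pow 2)).div (ht.pow 2)

end H13N
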