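import Mathlib
import Pool.Agent.Lib.H13N.G3
import Pool.Agent.Lib.H13N.R5
import Pool.Agent.Lib.H13N.L3
import Pool.Agent.Lib.H13N.M0
import Pool.Agent.Lib.H19T.Fin

open NumberField IsDedekindDomain

namespace H13N

open H55B H35T H55N H13E

/-! Assembly. -/

theorem anP_sub (K₀ L : Type) [Field K₀] [NumberField K₀] [Field L] [NumberField L] [Algebra F L]
    [Algebra K₀ L] (hT : ThreeExt L) (hU : UnrOut L) : AnP K₀ := by
  rcases exists_FK K₀ L with ⟨i1, i2⟩ | ⟨K, i1, i2, i3, i4, i5, i6, hQ⟩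
  · have hS : H19T.Sub3 K₀ := ⟨L, _, _, _, _, i2, hT, hU⟩
    exact L_valF K₀ hS.unr (H19T.LVT_sub K₀ hS)
  · have hS : H19T.Sub3 K := ⟨L, _, _, _, _, i6, hT, hU⟩
    exact L_valN hQ hS.unr (H19T.LVT_sub K hS)

/-- THEOREM, p = 3: all subfields (containing F or not) of Galois 3-extensions of F unramified outside the good
primes. -/
theorem main (K₀ : Type) [Field K₀] [NumberField K₀] (h : Sub3 K₀) : BSD3 K₀ := by
  obtain ⟨s1, s2, s3, s4⟩ := main2 K₀ h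
  obtain ⟨L, i1, i2, i3, i4, hG, ⟨k, hk⟩, hU⟩ := h
  obtain ⟨Λ, a1, a2, a3, a4⟩ := anP_sub K₀ L ⟨hG, k, hk⟩ hU
  obtain ⟨N, j1, j2, j3, j4, j5, m, hN⟩ := exists_galN L hG k hk hU
  letI : Algebra K₀ N := ((algebraMap L N).comp (algebraMap K₀ L)).toAlgebra
  exact ⟨⟨Λ, a1, a2, a3, fun P g2 g3 => shaAn0_unitN hN s4 (Λ 1) a4 P g2 g3⟩, s1, s2, s3, s4⟩

end H13N
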