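import Mathlib
import Pool.Agent.Lib.H13E.Fin3
import Pool.Agent.Lib.H55D.X3

open NumberField IsDedekindDomain

namespace H13N

open H55B H35T H13E

/-! Fields Galois over the rationals. -/

/-- K₀/ℚ is unramified outside the prime numbers l = 7 mod 12. -/
def UnrQ3 (K₀ : Type) [Field K₀] [NumberField K₀] : Prop :=
  ∀ (w : HeightOneSpectrum (𝓞 K₀)) (l : ℕ), l.Prime → (l : 𝓞 K₀) ∈ w.asIdeal →
    l % 12 ≠ 7 → w.asIdeal.ramificationIdx ℤ = 1

theorem x1_good (v : HeightOneSpectrum O) (l : ℕ) (hl : l.Prime) (hlv : (l : O) ∈ v.asIdeal)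
    (h12 : l % 12 = 7) : Good v := by
  have h2v : (2 : O) ∉ v.asIdeal := by
    intro h
    have h1 := (H1_int_mem hl hlv 2).1 (by exact_mod_cast h)
    have h2 : l ∣ 2 := by exact_mod_cast h1
    have h3 := (Nat.prime_dvd_prime_iff_eq hl Nat.prime_two).1 h2
    omega
  have h3v : (3 : O) ∉ v.asIdeal := by
    intro h
    have h1 := (H1_int_mem hl hlv 3).1 (by exact_mod_cast h)
    have h2 : l ∣ 3 := by exact_mod_cast h1
    have h3 := (Nat.prime_dvd_prime_iff_eq hl Nat.prime_three).1 h2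
    omega
  refine ⟨h2v, h3v, ?_⟩
  rintro ⟨x, hx⟩
  have hcard : Ideal.absNorm v.asIdeal = l := by
    rcases prime_types v h3v with ⟨l', hl', -, hN⟩ | ⟨q, hq, hq3, hv⟩
    · have h4 := Ideal.absNorm_mem v.asIdeal
      rw [hN] at h4
      have h5 := (H1_int_mem hl hlv l').1 (by exact_mod_cast h4)
      have h6 : l ∣ l' := by exact_mod_cast h5
      rw [hN, (Nat.prime_dvd_prime_iff_eq hl hl').1 h6]
    · exfalso
      have h4 : (q : O) ∈ v.asIdeal := by
        rw [hv]
        exact Ideal.mem_span_singleton_self _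
      have h5 := (H1_int_mem hl hlv q).1 (by exact_mod_cast h4)
      have h6 : l ∣ q := by exact_mod_cast h5
      have h7 := (Nat.prime_dvd_prime_iff_eq hl hq).1 h6
      omega
  have hcard' : Nat.card (O ⧸ v.asIdeal) = l := hcard
  have hfin : Finite (O ⧸ v.asIdeal) :=
    Nat.finite_of_card_ne_zero (by rw [hcard']; exact hl.ne_zero)
  let _ : Fintype (O ⧸ v.asIdeal) := Fintype.ofFinite _
  have hc' : Fintype.card (O ⧸ v.asIdeal) = l := by rw [← Nat.card_eq_fintype_card, hcard']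
  let f : ZMod l ≃+* O ⧸ v.asIdeal := ZMod.ringEquivOfPrime _ hl hc'
  have hlF : Fact l.Prime := ⟨hl⟩
  have h8 := Ideal.Quotient.eq_zero_iff_mem.2 hx
  rw [map_add, map_pow, map_one] at h8
  have h9 : IsSquare (-1 : ZMod l) := by
    refine ⟨f.symm (Ideal.Quotient.mk v.asIdeal x), ?_⟩
    rw [← map_mul, ← pow_two, eq_neg_of_add_eq_zero_left h8, map_neg, map_one]
  have h10 := ZMod.exists_sq_eq_neg_one_iff.1 h9
  omega

theorem x1_noroot {K₀ : Type} [Field K₀] [NumberField K₀] {k : ℕ}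
    (hk : Module.finrank ℚ K₀ = 3 ^ k) (x : K₀) : x ^ 2 + x + 1 ≠ 0 := by
  intro hx
  have hq : (Polynomial.X ^ 2 + Polynomial.X + 1 : Polynomial ℚ) ≠ 0 := by
    have : (Polynomial.X ^ 2 + Polynomial.X + 1 : Polynomial ℚ).Monic := by monicity!
    exact this.ne_zero
  have hirr : Irreducible (Polynomial.X ^ 2 + Polynomial.X + 1 : Polynomial ℚ) := by
    apply Polynomial.irreducible_of_degree_le_three_of_not_isRoot
    · have : (Polynomial.X ^ 2 + Polynomial.X + 1 : Polynomial ℚ).natDegree = 2 := by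
        compute_degree!
      rw [this]
      simp
    · intro y hy
      have h1 : Polynomial.eval y (Polynomial.X ^ 2 + Polynomial.X + 1 : Polynomial ℚ) = 0 := hy
      simp only [Polynomial.eval_add, Polynomial.eval_pow, Polynomial.eval_X,
        Polynomial.eval_one] at h1
      nlinarith [sq_nonneg (y + 1 / 2)]
  have hm : minpoly ℚ x = (Polynomial.X ^ 2 + Polynomial.X + 1 : Polynomial ℚ) := by
    symm
    apply minpoly.eq_of_irreducible_of_monic hirr
    · simp only [map_add, map_pow, Polynomial.aeval_X, map_one]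
      exact hx
    · monicity!
  have h1 := minpoly.degree_dvd (K := ℚ) (Algebra.IsIntegral.isIntegral x : IsIntegral ℚ x)
  have h2 : (Polynomial.X ^ 2 + Polynomial.X + 1 : Polynomial ℚ).natDegree = 2 := by
    compute_degree!
  rw [hm, h2, hk] at h1
  have h3 := Nat.prime_two.dvd_of_dvd_pow h1
  omega

theorem x1_unr (K₀ E : Type) [Field K₀] [NumberField K₀] (hG : IsGalois ℚ K₀) (hU : UnrQ3 K₀)
    [Field E] [NumberField E] [Algebra F E] [Algebra K₀ E] (hGE : IsGalois F E)
    (htop : IntermediateField.adjoin K₀ {H55D.X3_z E} = ⊤) : UnrOut E := by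
  have htow : IsScalarTower ℚ F E := IsScalarTower.of_algebraMap_eq' (Subsingleton.elim _ _)
  have htow' : IsScalarTower ℚ K₀ E := IsScalarTower.of_algebraMap_eq' (Subsingleton.elim _ _)
  intro w v hv hbad
  rw [H55C.inertia_iff w]
  intro g hg
  let g' : E ≃ₐ[ℚ] E := g.restrictScalars ℚ
  let g₀ : K₀ ≃ₐ[ℚ] K₀ := g'.restrictNormal K₀
  have hg₀ : ∀ x : K₀, algebraMap K₀ E (g₀ x) = g (algebraMap K₀ E x) := fun x =>
    AlgEquiv.restrictNormal_commutes g' K₀ x
  have hwp := w.isPrime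
  have hp : (w.asIdeal.under (𝓞 K₀)).IsPrime := inferInstance
  have hne : w.asIdeal.under (𝓞 K₀) ≠ ⊥ := by
    intro h
    exact w.ne_bot (Ideal.eq_bot_of_comap_eq_bot (R := 𝓞 K₀) (I := w.asIdeal) h)
  let w₀ : HeightOneSpectrum (𝓞 K₀) := ⟨w.asIdeal.under (𝓞 K₀), hp, hne⟩
  have h1 : ∀ y : 𝓞 K₀, g₀ • y - y ∈ w₀.asIdeal := by
    intro y
    show algebraMap (𝓞 K₀) (𝓞 E) (g₀ • y - y) ∈ w.asIdeal
    have h2 : algebraMap (𝓞 K₀) (𝓞 E) (g₀ • y) = g • algebraMap (𝓞 K₀) (𝓞 E) y := by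
      apply NumberField.RingOfIntegers.ext
      exact hg₀ _
    rw [map_sub, h2]
    exact hg _
  -- the prime number below
  have hvp := v.isPrime
  obtain ⟨l, hl, hlv⟩ : ∃ l : ℕ, l.Prime ∧ (l : O) ∈ v.asIdeal := by
    refine H55D.X3_prime v.asIdeal (Ideal.absNorm v.asIdeal) ?_ (Ideal.absNorm_mem _)
    rw [Ne, Ideal.absNorm_eq_zero_iff]
    exact v.ne_bot
  have hlw : (l : 𝓞 E) ∈ w.asIdeal := by
    rw [hv] at hlv
    have h3 : algebraMap O (𝓞 E) (l : O) ∈ w.asIdeal := hlv
    rwa [map_natCast] at h3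
  have hlw₀ : (l : 𝓞 K₀) ∈ w₀.asIdeal := by
    show algebraMap (𝓞 K₀) (𝓞 E) (l : 𝓞 K₀) ∈ w.asIdeal
    rwa [map_natCast]
  have hr := hU w₀ l hl hlw₀ (fun h => hbad (x1_good v l hl hlv h))
  have hg1 : g₀ = 1 := H55D.X3_inertia w₀ hr g₀ h1
  have hfix : ∀ x : K₀, g (algebraMap K₀ E x) = algebraMap K₀ E x := by
    intro x
    rw [← hg₀, hg1]
    rfl
  have hz : g (H55D.X3_z E) = H55D.X3_z E := g.commutes _
  ext x
  have hx : x ∈ IntermediateField.adjoin K₀ {H55D.X3_z E} := by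
    rw [htop]
    exact IntermediateField.mem_top
  show g x = x
  refine IntermediateField.adjoin_induction K₀ (p := fun x _ => g x = x) ?_ hfix ?_ ?_ ?_ hx
  · rintro x rfl
    exact hz
  · intro x y _ _ h1 h2
    rw [map_add, h1, h2]
  · intro x _ h1
    rw [map_inv₀, h1]
  · intro x y _ _ h1 h2
    rw [map_mul, h1, h2]

theorem of_rat3 (K₀ : Type) [Field K₀] [NumberField K₀] (hG : IsGalois ℚ K₀) (k : ℕ)
    (hk : Module.finrank ℚ K₀ = 3 ^ k) (hU : UnrQ3 K₀) : Sub3 K₀ := by
  classical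
  let φ : F →ₐ[ℚ] AlgebraicClosure K₀ := IsAlgClosed.lift
  let _ : Algebra F (AlgebraicClosure K₀) := φ.toRingHom.toAlgebra
  have hz := H55D.X3_z_root (AlgebraicClosure K₀)
  let E : IntermediateField K₀ (AlgebraicClosure K₀) :=
    IntermediateField.adjoin K₀ {H55D.X3_z (AlgebraicClosure K₀)}
  have hmem : H55D.X3_z (AlgebraicClosure K₀) ∈ E :=
    IntermediateField.mem_adjoin_simple_self K₀ _
  have hint : ∀ x ∈ ({H55D.X3_z (AlgebraicClosure K₀)} : Set (AlgebraicClosure K₀)),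
      IsIntegral K₀ x := by
    intro x _
    exact (Algebra.IsAlgebraic.isAlgebraic x).isIntegral
  have hEfin : FiniteDimensional K₀ E := IntermediateField.finiteDimensional_adjoin hint
  have hnf : NumberField E := NumberField.of_module_finite K₀ E
  let ψ : F →+* E := (algebraMap F (AlgebraicClosure K₀)).codRestrict E
    (H55D.X3_range K₀ (AlgebraicClosure K₀) E hmem)
  let hFE : Algebra F E := ψ.toAlgebra
  have htow : IsScalarTower ℚ F E := IsScalarTower.of_algebraMap_eq' (Subsingleton.elim _ _)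
  have htow' : IsScalarTower ℚ K₀ E := IsScalarTower.of_algebraMap_eq' (Subsingleton.elim _ _)
  have hzE : ((H55D.X3_z E : E) : AlgebraicClosure K₀) = H55D.X3_z (AlgebraicClosure K₀) := rfl
  have hrank : Module.finrank K₀ E = 2 := H55D.X3_rank K₀ _ _ hz (x1_noroot hk)
  have hN : Normal ℚ E := H55D.X3_normal K₀ hG _ hz
  have hGQ : IsGalois ℚ E := { to_normal := hN }
  have hGF : IsGalois F E := IsGalois.tower_top_of_isGalois ℚ F E
  have htop : IntermediateField.adjoin K₀ {H55D.X3_z E} = ⊤ := by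
    have h1 : IntermediateField.map E.val (IntermediateField.adjoin K₀ {H55D.X3_z E}) =
        IntermediateField.map E.val ⊤ := by
      rw [IntermediateField.adjoin_map, Set.image_singleton]
      show IntermediateField.adjoin K₀ {H55D.X3_z (AlgebraicClosure K₀)} = _
      rw [← AlgHom.fieldRange_eq_map, IntermediateField.fieldRange_val]
    exact IntermediateField.map_injective E.val h1
  refine ⟨E, inferInstance, hnf, hFE, inferInstance, hGF, ⟨k, ?_⟩,
    x1_unr K₀ E hG hU hGF htop⟩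
  have h1 := Module.finrank_mul_finrank ℚ F E
  have h2 := Module.finrank_mul_finrank ℚ K₀ E
  rw [H55D.X3_finrank] at h1
  rw [hk, hrank] at h2
  omega

end H13N
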