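import Mathlib
import Pool.Agent.Lib.H13E.Fin3
import Pool.Agent.Lib.H13E.X3
import Pool.Agent.Lib.H13E.X5

open NumberField IsDedekindDomain

namespace H13N

open H55B H35T H13E

/-- The explicit family of H13E belongs to the class. -/
theorem sub3_of_fam (K₀ : Type) [Field K₀] [NumberField K₀] (h : Fam K₀) : Sub3 K₀ := by
  obtain ⟨⟨k, hk⟩, m, N, _, _, _, S, h1, h2, h3, h4⟩ := h
  obtain ⟨M, N₁, _, _, _, _, S₁, m0, m1, m2, m3⟩ := exists_gen m h1 h2 N S h3 h4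
  let _ : Algebra K₀ N₁ := ((algebraMap N N₁).comp (algebraMap K₀ N)).toAlgebra
  obtain ⟨hG, hc⟩ := gen_galois M m0 S₁ m3 m2
  have hmod := gen_mod M m1 S₁ m3 m2
  obtain ⟨K, _, _, _, _, _, hT, hQ, hr⟩ := exists_K K₀ N₁ k hk
  obtain ⟨g1, g2, g3⟩ := sub_mod K N₁ hG hc (M : O) hmod
  exact ⟨K, inferInstance, inferInstance, inferInstance, inferInstance, g1, ⟨k, hr⟩,
    unrOut_of_modulus m1 g3.1⟩

end H13N
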