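import Mathlib
import Pool.Agent.Lib.H13E.Fin3
import Pool.Agent.Lib.H13N.G3
import Pool.Agent.Lib.H19T.W9

open NumberField IsDedekindDomain

namespace H13N

open H55B H35T H13E

/-- K₀ has a real place, does not contain F, and K₀ F = N is a Galois extension of F of 3-power degree,
unramified outside the good primes, whose Galois group has a subgroup with quotient H. -/
def RealSub (K₀ : Type) [Field K₀] [NumberField K₀] (H : Type) [Group H] : Prop :=
  0 < InfinitePlace.nrRealPlaces K₀ ∧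
  ∃ (N : Type) (_ : Field N) (_ : NumberField N) (_ : Algebra F N) (_ : Algebra K₀ N),
    Quad K₀ N ∧ ThreeExt N ∧ UnrOut N ∧
      ∃ (S : Subgroup (N ≃ₐ[F] N)) (φ : S →* H), Function.Surjective φ

theorem RealSub.sub3 {K₀ : Type} [Field K₀] [NumberField K₀] {H : Type} [Group H]
    (h : RealSub K₀ H) : Sub3 K₀ := by
  obtain ⟨-, N, i1, i2, i3, i4, -, hT, hU, -⟩ := h
  exact ⟨N, i1, i2, i3, i4, hT.1, hT.2, hU⟩

/-- The real subfield. -/
theorem x3_pos (K₀ : Type) [Field K₀] [NumberField K₀] (j : K₀ →+* ℂ)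
    (hj : ComplexEmbedding.IsReal j) : 0 < InfinitePlace.nrRealPlaces K₀ := by
  classical
  rw [← InfinitePlace.card_real_embeddings, Fintype.card_pos_iff]
  exact ⟨⟨j, hj⟩⟩

theorem x3_real (N : Type) [Field N] [NumberField N] [Algebra F N] (hG : IsGalois ℚ N) :
    ∃ (K₀ : Type) (_ : Field K₀) (_ : NumberField K₀) (_ : Algebra K₀ N),
      0 < InfinitePlace.nrRealPlaces K₀ ∧ Quad K₀ N := by
  obtain ⟨i⟩ : Nonempty (N →+* ℂ) := inferInstance
  have h1 : i.comp (algebraMap ℚ N) = ((starRingEnd ℂ).comp i).comp (algebraMap ℚ N) :=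
    Subsingleton.elim _ _
  obtain ⟨σ, hσ⟩ := ComplexEmbedding.exists_comp_symm_eq_of_comp_eq i _ h1
  let γ : N ≃ₐ[ℚ] N := σ.symm
  have hγ : ∀ z, i (γ z) = (starRingEnd ℂ) (i z) := fun z =>
    congrArg (fun φ : N →+* ℂ => φ z) hσ
  have hγ1 : γ ≠ 1 := by
    intro h
    apply T6_nonreal i
    ext z
    show (starRingEnd ℂ) (i z) = i z
    rw [← hγ, h]
    rfl
  have hγ2 : γ * γ = 1 := by
    ext z
    apply i.injective
    change i (γ (γ z)) = i z
    rw [hγ, hγ, Complex.conj_conj]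
  let K₀ : IntermediateField ℚ N := IntermediateField.fixedField (Subgroup.zpowers γ)
  have hfix : ∀ x : K₀, γ (x : N) = x := by
    intro x
    exact x.2 ⟨γ, Subgroup.mem_zpowers γ⟩
  have hreal : ∀ x : K₀, (starRingEnd ℂ) (i (x : N)) = i (x : N) := by
    intro x
    rw [← hγ, hfix]
  have hrank : Module.finrank K₀ N = 2 := by
    have h2 : Module.finrank K₀ N = Nat.card (Subgroup.zpowers γ) :=
      IntermediateField.finrank_fixedField_eq_card _
    rw [h2, Nat.card_zpowers]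
    exact orderOf_eq_prime (by rw [pow_two, hγ2]) hγ1
  refine ⟨K₀, inferInstance, inferInstance, inferInstance, ?_, hrank, ?_⟩
  · let j : K₀ →+* ℂ := i.comp (algebraMap K₀ N)
    have hj : ComplexEmbedding.IsReal j := by
      rw [ComplexEmbedding.isReal_iff]
      ext x
      exact hreal x
    exact x3_pos K₀ j hj
  · intro x hx
    have h4 := Complex.conj_eq_iff_real.1 (hreal x)
    obtain ⟨r, hr⟩ := h4
    have h5 := congrArg (fun y : K₀ => i (y : N)) hx
    have h6 : i (x : N) ^ 2 + i (x : N) + 1 = 0 := by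
      simpa using h5
    rw [hr] at h6
    have h7 : r ^ 2 + r + 1 = 0 := by exact_mod_cast h6
    nlinarith [sq_nonneg (r + 1 / 2)]

/-- Real fields with arbitrarily complicated Galois groups. -/
theorem exists_realSub (H : Type) [Group H] [Finite H] (k : ℕ) (hH : Nat.card H = 3 ^ k) :
    ∃ (K₀ : Type) (_ : Field K₀) (_ : NumberField K₀), RealSub K₀ H := by
  obtain ⟨L, i1, i2, i3, hT, hU, ⟨ψ, hψ⟩, -⟩ := H19T.exists_embed3 k H hH 0
  obtain ⟨hG, ⟨l, hl⟩⟩ := hT
  obtain ⟨N, j1, j2, j3, j4, j5, m, hN⟩ := exists_galN L hG l hl hU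
  obtain ⟨K₀, k1, k2, k3, hr, hQ⟩ := x3_real N hN.gal
  have hGQ := hN.gal
  have hGF : IsGalois F N := IsGalois.tower_top_of_isGalois ℚ F N
  refine ⟨K₀, k1, k2, hr, N, j1, j2, j3, k3, hQ, ⟨hGF, m, hN.deg⟩, hN.unr, ?_⟩
  let res : (N ≃ₐ[F] N) →* (L ≃ₐ[F] L) := AlgEquiv.restrictNormalHom L
  have hres : Function.Surjective res := AlgEquiv.restrictNormalHom_surjective N
  let e : H ≃* ψ.range := MonoidHom.ofInjective hψ
  refine ⟨ψ.range.comap res, (e.symm : ψ.range →* H).comp (res.subgroupComap ψ.range), ?_⟩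
  intro h
  obtain ⟨g, hg⟩ := hres (e h)
  refine ⟨⟨g, ?_⟩, ?_⟩
  · rw [Subgroup.mem_comap, hg]
    exact (e h).2
  · have h1 : res.subgroupComap ψ.range ⟨g, by rw [Subgroup.mem_comap, hg]; exact (e h).2⟩ = e h :=
      Subtype.ext hg
    show e.symm _ = h
    rw [h1]
    exact e.symm_apply_apply h

end H13N
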