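import Mathlib
import Pool.Agent.Lib.H13E.X6
import Pool.Agent.Lib.H13N.Main
import Pool.Agent.Lib.H13N.X1
import Pool.Agent.Lib.H13N.X2
import Pool.Agent.Lib.H13N.X3
import Pool.Agent.Lib.H35T.Final

open NumberField IsDedekindDomain

namespace H13N

open H55B H35T H13E

/-- K/F is Galois of 3-power degree, unramified outside the good primes, and all ramified primes have
norm greater than B. -/
def Three (K : Type) [Field K] [NumberField K] [Algebra F K] (B : ℕ) : Prop :=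
  ThreeExt K ∧ UnrOut K ∧ ∀ w : HeightOneSpectrum (𝓞 K), w.asIdeal.ramificationIdx O ≠ 1 →
    B < Ideal.absNorm w.asIdeal

/-- K/ℚ is Galois of 3-power degree, unramified outside the prime numbers l = 7 mod 12. -/
def ThreeQ (K : Type) [Field K] [NumberField K] : Prop :=
  IsGalois ℚ K ∧ (∃ k : ℕ, Module.finrank ℚ K = 3 ^ k) ∧ UnrQ3 K

/-- The Galois group of K/F is isomorphic to A. -/
def GalIs (K : Type) [Field K] [Algebra F K] (A : Type) [Group A] : Prop :=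
  Nonempty ((K ≃ₐ[F] K) ≃* A)

/-- H is isomorphic to a subgroup of the Galois group of K/F. -/
def GalSub (K : Type) [Field K] [Algebra F K] (H : Type) [Group H] : Prop :=
  ∃ φ : H →* (K ≃ₐ[F] K), Function.Injective φ

/-- K is generated by a cube root of the prime number p. -/
def Pure (K : Type) [Field K] [NumberField K] (p : ℕ) : Prop :=
  (∃ t : K, t ^ 3 = (p : K)) ∧ Module.finrank ℚ K = 3 ∧ ¬ IsGalois ℚ K

theorem final :
    (∃ L : PeriodPair, L.g₂ = 0 ∧ L.g₃ = 4) ∧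
    (∀ (K : Type) [Field K] [NumberField K], Sub3 K → BSD3 K) ∧
    (∀ (K : Type) [Field K] [NumberField K], ThreeQ K → Sub3 K) ∧
    (∀ (K : Type) [Field K] [NumberField K], Fam K → Sub3 K) ∧
    (∀ B : ℕ, ∃ (K : Type) (_ : Field K) (_ : NumberField K) (p : ℕ), p.Prime ∧ B < p ∧
      p % 36 = 19 ∧ Pure K p ∧ Sub3 K) ∧
    (∀ (K : Type) [Field K] [NumberField K] [Algebra F K], Explicit K →
      (∃ k : ℕ, Module.finrank F K = 3 ^ k) → ThreeExt K ∧ UnrOut K) ∧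
    (∀ (A : Type) [CommGroup A] [Finite A] (k : ℕ), Nat.card A = 3 ^ k → ∀ B : ℕ,
      ∃ (K : Type) (_ : Field K) (_ : NumberField K) (_ : Algebra F K), Three K B ∧
        GalIs K A) ∧
    (∀ (K : Type) [Field K] [NumberField K] [Algebra F K] (B : ℕ), Three K B →
      ∃ (K' : Type) (_ : Field K') (_ : NumberField K') (_ : Algebra F K') (_ : Algebra K K')
        (_ : IsScalarTower F K K'), Three K' B ∧
        GalIs K' (H19T.C3 ≀ᵣ (K ≃ₐ[F] K))) ∧
    (∀ (H : Type) [Group H] [Finite H] (k : ℕ), Nat.card H = 3 ^ k → ∀ B : ℕ,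
      ∃ (K : Type) (_ : Field K) (_ : NumberField K) (_ : Algebra F K), Three K B ∧
        GalSub K H) ∧
    (∀ (H : Type) [Group H] [Finite H] (k : ℕ), Nat.card H = 3 ^ k →
      ∃ (K₀ : Type) (_ : Field K₀) (_ : NumberField K₀), RealSub K₀ H ∧ Sub3 K₀) := by
  have hun : ∀ (K : Type) [Field K] [NumberField K] [Algebra F K], H35T.AbMod K → UnrOut K := by
    rintro K _ _ _ ⟨-, α, hα, hM⟩
    exact unrOut_of_modulus hα hM.1
  obtain ⟨-, f2, f3, -, -, -⟩ := H35T.final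
  refine ⟨exists_period, fun K _ _ h => main K h, fun K _ _ h => ?_, fun K _ _ h => sub3_of_fam K h,
    ?_, ?_, ?_, ?_, ?_, ?_⟩
  · obtain ⟨h1, ⟨k, hk⟩, h3⟩ := h
    exact of_rat3 K h1 k hk h3
  · intro B
    obtain ⟨K, i1, i2, p, t, h1, h2, h3, h4, h5, h6, h7⟩ := exists_pure B
    exact ⟨K, i1, i2, p, h1, h2, h3, ⟨⟨t, h4⟩, h5, h6⟩, sub3_of_fam K h7⟩
  · intro K _ _ _ hE hk
    obtain ⟨h1, h2⟩ := f2 K hE hk
    exact ⟨h1, hun K h2⟩
  · intro A _ _ k hA B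
    obtain ⟨K, i1, i2, i3, h1, h2, h3, h4⟩ := f3 A k hA B
    exact ⟨K, i1, i2, i3, ⟨h1, hun K h2, h4⟩, h3⟩
  · intro K _ _ _ B hT
    obtain ⟨K', i1, i2, i3, i4, i5, h1, h2, h3, h4⟩ := H19T.wreath_step3 K hT.1 hT.2.1 B hT.2.2
    exact ⟨K', i1, i2, i3, i4, i5, ⟨h1, h2, h4⟩, h3⟩
  · intro H _ _ k hH B
    obtain ⟨K, i1, i2, i3, h1, h2, h3, h4⟩ := H19T.exists_embed3 k H hH B
    exact ⟨K, i1, i2, i3, ⟨h1, h2, h4⟩, h3⟩
  · intro H _ _ k hH
    obtain ⟨K₀, i1, i2, h⟩ := exists_realSub H k hH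
    exact ⟨K₀, i1, i2, h, h.sub3⟩

end H13N
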