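import Mathlib
import Pool.Agent.Lib.H13N.Final

open NumberField IsDedekindDomain

namespace H13N

open H55B H35T H13E

/-- Some pure cubic field generated by a cube root of p is in the class Sub3. -/
def PureCubic (p : ℕ) : Prop :=
  ∃ (K : Type) (_ : Field K) (_ : NumberField K), Pure K p ∧ Sub3 K

/-- A is the Galois group of some K/F with Three K B. -/
def Realized (A : Type) [Group A] (B : ℕ) : Prop :=
  ∃ (K : Type) (_ : Field K) (_ : NumberField K) (_ : Algebra F K), Three K B ∧ GalIs K A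

/-- H is a subgroup of the Galois group of some K/F with Three K B. -/
def Embedded (H : Type) [Group H] (B : ℕ) : Prop :=
  ∃ (K : Type) (_ : Field K) (_ : NumberField K) (_ : Algebra F K), Three K B ∧ GalSub K H

/-- Over K there is a field K' with Three K' B such that the Galois group of K'/F is the regular wreath product
of the group of order 3 and the Galois group of K/F. -/
def Wreathed (K : Type) [Field K] [NumberField K] [Algebra F K] (B : ℕ) : Prop :=
  ∃ (K' : Type) (_ : Field K') (_ : NumberField K') (_ : Algebra F K') (_ : Algebra K K')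
    (_ : IsScalarTower F K K'), Three K' B ∧ GalIs K' (H19T.C3 ≀ᵣ (K ≃ₐ[F] K))

/-- H is isomorphic to a quotient of a subgroup of Γ. -/
def SubQ (Γ : Type) [Group Γ] (H : Type) [Group H] : Prop :=
  ∃ (S : Subgroup Γ) (φ : S →* H), Function.Surjective φ

/-- There is a number field K₀ in the class Sub3, with a real place, whose compositum N with F is in the class
as well and H is a subquotient of the Galois group of N/F. -/
def RealField (H : Type) [Group H] : Prop :=
  ∃ (K₀ : Type) (_ : Field K₀) (_ : NumberField K₀), 0 < InfinitePlace.nrRealPlaces K₀ ∧ Sub3 K₀ ∧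
    ∃ (N : Type) (_ : Field N) (_ : NumberField N) (_ : Algebra F N) (_ : Algebra K₀ N),
      Quad K₀ N ∧ ThreeExt N ∧ UnrOut N ∧ SubQ (N ≃ₐ[F] N) H

theorem final2 :
    (∃ L : PeriodPair, L.g₂ = 0 ∧ L.g₃ = 4) ∧
    (∀ (K : Type) [Field K] [NumberField K], Sub3 K → BSD3 K) ∧
    (∀ (K : Type) [Field K] [NumberField K], ThreeQ K ∨ Fam K → Sub3 K) ∧
    (∀ B : ℕ, ∃ p : ℕ, p.Prime ∧ B < p ∧ p % 36 = 19 ∧ PureCubic p) ∧
    (∀ (K : Type) [Field K] [NumberField K] [Algebra F K], Explicit K →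
      (∃ k : ℕ, Module.finrank F K = 3 ^ k) → ThreeExt K ∧ UnrOut K) ∧
    (∀ (A : Type) [CommGroup A] [Finite A] (k : ℕ), Nat.card A = 3 ^ k →
      ∀ B : ℕ, Realized A B) ∧
    (∀ (K : Type) [Field K] [NumberField K] [Algebra F K] (B : ℕ), Three K B → Wreathed K B) ∧
    (∀ (H : Type) [Group H] [Finite H] (k : ℕ), Nat.card H = 3 ^ k →
      (∀ B : ℕ, Embedded H B) ∧ RealField H) := by
  obtain ⟨h1, h2, h3, h4, h5, h6, h7, h8, h9, h10⟩ := final
  refine ⟨h1, fun K _ _ h => h2 K h, fun K _ _ h => ?_, fun B => ?_, fun K _ _ _ h h' => h6 K h h',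
    fun A _ _ k hA B => h7 A k hA B, fun K _ _ _ B hT => h8 K B hT,
    fun H _ _ k hH => ⟨fun B => h9 H k hH B, ?_⟩⟩
  · rcases h with h | h
    · exact h3 K h
    · exact h4 K h
  · obtain ⟨K, i1, i2, p, hp, hB, hm, hP, hS⟩ := h5 B
    exact ⟨p, hp, hB, hm, K, i1, i2, hP, hS⟩
  · obtain ⟨K₀, i1, i2, ⟨hr, N, j1, j2, j3, j4, hQ, hT, hU, S, φ, hφ⟩, hS⟩ := h10 H k hH
    exact ⟨K₀, i1, i2, hr, hS, N, j1, j2, j3, j4, hQ, hT, hU, S, φ, hφ⟩

end H13N
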